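import Mathlib

/-! Combinatorial core: existence of a finitely supported mod 2 function solving the
constraints allowed by a monotone well-founded tree. -/

namespace Pool.Agent.Lib.MP_17e614_gt

open Finset

/-- The tree of boxes is closed under initial segments and coordinatewise increase. -/
def Mono (T : ℕ → (ℕ → ℕ) → Prop) : Prop :=
  ∀ n m s s', 1 ≤ m → m ≤ n → (∀ i < m, s i ≤ s' i) → T n s → T m s'

/-- A rank function for the tree. -/
def Ranked (T : ℕ → (ℕ → ℕ) → Prop) (r : ℕ → (ℕ → ℕ) → Ordinal.{0}) : Prop :=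
  ∀ n n' s s', 1 ≤ n → n < n' → (∀ i < n, s' i ≤ s i) → T n' s' → r n' s' < r n s

/-- Admissible corner for the face in direction `j` of the simplex `insert v τ`. -/
def Adm (τ : Finset ℕ) (v j : ℕ) (s : ℕ → ℕ) : Prop :=
  (∀ i, i ∉ τ.erase j → s i = 0) ∧ (∀ i ∈ τ, ∀ k ∈ insert v τ, i < k → s i ≤ k)

/-- The parity constraint. -/
def Con (χ : Finset ℕ → ZMod 2) (τ : Finset ℕ) (v j : ℕ) : Prop :=
  χ (insert v τ) = χ (insert v (τ.erase j)) + if (∀ i ∈ τ, i ≤ j) then χ τ else 0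

/-- Normalisation and finite support. -/
def Good (χ : Finset ℕ → ZMod 2) (ν : ℕ) : Prop :=
  χ {0} = 1 ∧ ∀ σ, χ σ ≠ 0 → 0 ∈ σ ∧ ∀ i ∈ σ, i ≤ ν

/-- All allowed constraints hold. -/
def Sol (T : ℕ → (ℕ → ℕ) → Prop) (χ : Finset ℕ → ZMod 2) : Prop :=
  ∀ τ v j s, 0 ∈ τ → (∀ i ∈ τ, i < v) → j ∈ τ → Adm τ v j s → T v s → Con χ τ v j

/-- Lifting a node of the derived tree. -/
def lift (μ : ℕ) (s : ℕ → ℕ) (i : ℕ) : ℕ :=
  if i = 0 then μ else if i ≤ μ then μ + s 0 else μ + s (i - μ)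

/-- The derived tree. -/
def flat (T : ℕ → (ℕ → ℕ) → Prop) (μ : ℕ) (n : ℕ) (s : ℕ → ℕ) : Prop := T (μ + n) (lift μ s)

lemma lift_mono (μ m : ℕ) (hm : 1 ≤ m) (s s' : ℕ → ℕ) (h : ∀ i < m, s i ≤ s' i) :
    ∀ i < μ + m, lift μ s i ≤ lift μ s' i := by
  intro i hi
  unfold lift
  split_ifs with h1 h2
  · exact le_rfl
  · have := h 0 (by omega); omega
  · have := h (i - μ) (by omega); omega

lemma flat_mono {T : ℕ → (ℕ → ℕ) → Prop} (hT : Mono T) (μ : ℕ) : Mono (flat T μ) := by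
  intro n m s s' h1 h2 h3 h4
  exact hT (μ + n) (μ + m) _ _ (by omega) (by omega) (lift_mono μ m h1 s s' h3) h4

lemma flat_ranked {T : ℕ → (ℕ → ℕ) → Prop} {r : ℕ → (ℕ → ℕ) → Ordinal.{0}} (hr : Ranked T r)
    (μ : ℕ) : Ranked (flat T μ) (fun n s => r (μ + n) (lift μ s)) := by
  intro n n' s s' h1 h2 h3 h4
  exact hr (μ + n) (μ + n') _ _ (by omega) (by omega) (lift_mono μ n h1 s' s h3) h4

lemma no_branch {T : ℕ → (ℕ → ℕ) → Prop} {r : ℕ → (ℕ → ℕ) → Ordinal.{0}} (hT : Mono T)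
    (hr : Ranked T r) (N : ℕ → ℕ) (m : ℕ) : ∃ n, m ≤ n ∧ ¬ T (n + 1) N := by
  by_contra h
  push Not at h
  have hall : ∀ n, T (n + 1) N := fun n =>
    hT (m + n + 1) (n + 1) N N (by omega) (by omega) (fun _ _ => le_rfl) (h _ (by omega))
  obtain ⟨n, hn⟩ := WellFounded.not_rel_apply_succ (r := ((· < ·) : Ordinal.{0} → Ordinal.{0} → Prop))
    (fun n => r (n + 1) N)
  exact hn (hr (n + 1) (n + 1 + 1) N N (by omega) (by omega) (fun _ _ => le_rfl) (hall _))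

/-- Sum over the initial segments. -/
def gsum (χ : Finset ℕ → ZMod 2) (σ : Finset ℕ) : ZMod 2 :=
  ∑ i ∈ σ, χ (σ.filter (· ≤ i))

lemma gsum_congr {χ : Finset ℕ → ZMod 2} {ν : ℕ} (hχ : ∀ σ, χ σ ≠ 0 → 0 ∈ σ ∧ ∀ i ∈ σ, i ≤ ν)
    {σ σ' : Finset ℕ} (h : ∀ i ≤ ν, i ∈ σ ↔ i ∈ σ') : gsum χ σ = gsum χ σ' := by
  have key : ∀ ρ : Finset ℕ, gsum χ ρ = ∑ i ∈ ρ.filter (· ≤ ν), χ (ρ.filter (· ≤ i)) := by
    intro ρ
    unfold gsum
    rw [Finset.sum_filter]
    refine Finset.sum_congr rfl fun i hi => ?_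
    split_ifs with h1
    · rfl
    · by_contra h2
      exact h1 ((hχ _ h2).2 i (by simp [hi]))
  rw [key, key]
  have e : σ.filter (· ≤ ν) = σ'.filter (· ≤ ν) := by
    ext i; simp only [mem_filter]
    constructor
    · rintro ⟨a, b⟩; exact ⟨(h i b).1 a, b⟩
    · rintro ⟨a, b⟩; exact ⟨(h i b).2 a, b⟩
  rw [e]
  refine Finset.sum_congr rfl fun i hi => ?_
  have hi' : i ≤ ν := (mem_filter.1 hi).2
  congr 1
  ext k; simp only [mem_filter]
  constructor
  · rintro ⟨a, b⟩; exact ⟨(h k (by omega)).1 a, b⟩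
  · rintro ⟨a, b⟩; exact ⟨(h k (by omega)).2 a, b⟩

lemma gsum_ne_zero {χ : Finset ℕ → ZMod 2} {ν : ℕ}
    (hχ : ∀ σ, χ σ ≠ 0 → 0 ∈ σ ∧ ∀ i ∈ σ, i ≤ ν) {σ : Finset ℕ} (h : gsum χ σ ≠ 0) : 0 ∈ σ := by
  by_contra h0
  apply h
  refine Finset.sum_eq_zero fun i _ => ?_
  by_contra h2
  exact h0 (mem_filter.1 (hχ _ h2).1).1

/-- The telescoping identity. -/
lemma gsum_erase (χ : Finset ℕ → ZMod 2) (σ : Finset ℕ) (j : ℕ) (hj : j ∈ σ)
    (k₀ : ℕ) (hk₀ : k₀ ∈ σ) (hjk : j < k₀) (hmin : ∀ i ∈ σ, j < i → k₀ ≤ i)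
    (hcon : ∀ i ∈ σ, j < i → Con χ (σ.filter (· < i)) i j) :
    gsum χ σ = gsum χ (σ.erase j) := by
  unfold gsum
  rw [← Finset.add_sum_erase σ _ hj]
  have h1 : ∀ i ∈ σ.erase j, χ (σ.filter (· ≤ i)) =
      χ ((σ.erase j).filter (· ≤ i)) + if i = k₀ then χ (σ.filter (· ≤ j)) else 0 := by
    intro i hi
    have hi1 : i ≠ j := (mem_erase.1 hi).1
    have hi2 : i ∈ σ := (mem_erase.1 hi).2
    rcases lt_or_gt_of_ne hi1 with h | h
    · have : i ≠ k₀ := by omega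
      rw [if_neg this, add_zero]
      congr 1
      ext k; simp only [mem_filter, mem_erase]
      constructor
      · rintro ⟨a, b⟩; exact ⟨⟨by omega, a⟩, b⟩
      · rintro ⟨⟨_, a⟩, b⟩; exact ⟨a, b⟩
    · have hc := hcon i hi2 h
      unfold Con at hc
      have e1 : insert i (σ.filter (· < i)) = σ.filter (· ≤ i) := by
        ext k; simp only [mem_insert, mem_filter]
        constructor
        · rintro (rfl | ⟨a, b⟩)
          · exact ⟨hi2, le_rfl⟩
          · exact ⟨a, b.le⟩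
        · rintro ⟨a, b⟩
          rcases eq_or_lt_of_le b with h' | h'
          · exact Or.inl h'
          · exact Or.inr ⟨a, h'⟩
      have e2 : insert i ((σ.filter (· < i)).erase j) = (σ.erase j).filter (· ≤ i) := by
        ext k; simp only [mem_insert, mem_filter, mem_erase]
        constructor
        · rintro (rfl | ⟨c, a, b⟩)
          · exact ⟨⟨hi1, hi2⟩, le_rfl⟩
          · exact ⟨⟨c, a⟩, b.le⟩
        · rintro ⟨⟨c, a⟩, b⟩
          rcases eq_or_lt_of_le b with h' | h'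
          · exact Or.inl h'
          · exact Or.inr ⟨c, a, h'⟩
      rw [e1, e2] at hc
      rw [hc]
      congr 1
      by_cases hik : i = k₀
      · have c1 : ∀ k ∈ σ.filter (· < i), k ≤ j := by
          intro k hk
          have hk' := mem_filter.1 hk
          by_contra hh
          have := hmin k hk'.1 (by omega)
          omega
        rw [if_pos c1, if_pos hik]
        congr 1
        ext k; simp only [mem_filter]
        constructor
        · rintro ⟨a, b⟩; exact ⟨a, c1 k (mem_filter.2 ⟨a, b⟩)⟩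
        · rintro ⟨a, b⟩; exact ⟨a, by omega⟩
      · have c1 : ¬ ∀ k ∈ σ.filter (· < i), k ≤ j := by
          intro hh
          have := hmin i hi2 h
          have := hh k₀ (mem_filter.2 ⟨hk₀, by omega⟩)
          omega
        rw [if_neg c1, if_neg hik]
  rw [Finset.sum_congr rfl h1, Finset.sum_add_distrib, Finset.sum_ite_eq']
  have : k₀ ∈ σ.erase j := mem_erase.2 ⟨by omega, hk₀⟩
  rw [if_pos this]
  have h2 : ∀ a b : ZMod 2, a + (b + a) = b := by decide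
  exact h2 _ _

end Pool.Agent.Lib.MP_17e614_gt
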