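import Pool.Agent.Lib.MP_17e614_gt.Comb

/-! A mod 2 chain map from grid cubes to the simplex of labels. -/

namespace Pool.Agent.Lib.MP_17e614_gt

open Finset

/-- Simplicial boundary of a mod 2 chain on the full simplex on `Λ`. -/
def bd (Λ : Finset ℕ) (c : Finset ℕ → ZMod 2) (σ : Finset ℕ) : ZMod 2 :=
  ∑ v ∈ Λ, if v ∈ σ then 0 else c (insert v σ)

/-- Cone operator. -/
def cone (v : ℕ) (c : Finset ℕ → ZMod 2) (σ : Finset ℕ) : ZMod 2 :=
  if v ∈ σ then c (σ.erase v) else 0

lemma two_eq (a : ZMod 2) : a + a = 0 := by revert a; decide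

lemma bd_cone (Λ : Finset ℕ) (v : ℕ) (hv : v ∈ Λ) (c : Finset ℕ → ZMod 2) (σ : Finset ℕ) :
    bd Λ (cone v c) σ = c σ + cone v (bd Λ c) σ := by
  simp only [bd, cone]
  by_cases h : v ∈ σ
  · rw [if_pos h, ← Finset.add_sum_erase Λ _ hv, ← Finset.add_sum_erase Λ _ hv, if_pos h,
      if_neg (notMem_erase v σ), insert_erase h, zero_add, ← add_assoc, two_eq, zero_add]
    refine Finset.sum_congr rfl fun w hw => ?_
    have hwv : w ≠ v := (mem_erase.1 hw).1
    by_cases hwσ : w ∈ σ
    · rw [if_pos hwσ, if_pos (mem_erase.2 ⟨hwv, hwσ⟩)]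
    · rw [if_neg hwσ, if_neg (fun hh => hwσ (mem_of_mem_erase hh)),
        if_pos (mem_insert_of_mem h), erase_insert_of_ne hwv]
  · rw [if_neg h, add_zero, ← Finset.add_sum_erase Λ _ hv, if_neg h,
      if_pos (mem_insert_self _ _), erase_insert h]
    rw [Finset.sum_eq_zero, add_zero]
    intro w hw
    have hwv : w ≠ v := (mem_erase.1 hw).1
    split_ifs with h1 h2
    · rfl
    · rcases mem_insert.1 h2 with h3 | h3
      · exact absurd h3.symm hwv
      · exact absurd h3 h
    · rfl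

lemma bd_add (Λ : Finset ℕ) (c c' : Finset ℕ → ZMod 2) (σ : Finset ℕ) :
    bd Λ (fun ρ => c ρ + c' ρ) σ = bd Λ c σ + bd Λ c' σ := by
  unfold bd
  rw [← Finset.sum_add_distrib]
  refine Finset.sum_congr rfl fun v _ => ?_
  split_ifs <;> simp

lemma bd_sum {α : Type*} (Λ : Finset ℕ) (s : Finset α) (c : α → Finset ℕ → ZMod 2)
    (σ : Finset ℕ) : bd Λ (fun ρ => ∑ a ∈ s, c a ρ) σ = ∑ a ∈ s, bd Λ (c a) σ := by
  unfold bd
  rw [Finset.sum_comm]
  refine Finset.sum_congr rfl fun v _ => ?_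
  split_ifs <;> simp

variable {ι : Type*} [DecidableEq ι]

/-- Shift a grid point by one step in direction `j`. -/
def up (a : ι → ℕ) (j : ι) : ι → ℕ := Function.update a j (a j + 1)

lemma up_comm (a : ι → ℕ) (i j : ι) (h : i ≠ j) : up (up a i) j = up (up a j) i := by
  unfold up
  rw [Function.update_of_ne h.symm, Function.update_of_ne h, Function.update_comm h]

/-- The image of the boundary of a unit cube. -/
def Bc (κ : (ι → ℕ) → ℕ) : ℕ → Finset ι → (ι → ℕ) → Finset ℕ → ZMod 2
  | 0, _, _ => fun σ => if σ = ∅ then 1 else 0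
  | n + 1, D, a => fun σ => ∑ j ∈ D,
      (cone (κ a) (Bc κ n (D.erase j) a) σ + cone (κ (up a j)) (Bc κ n (D.erase j) (up a j)) σ)

/-- The image of a unit cube. -/
def Phi (κ : (ι → ℕ) → ℕ) (n : ℕ) (D : Finset ι) (a : ι → ℕ) : Finset ℕ → ZMod 2 :=
  cone (κ a) (Bc κ n D a)

lemma Bc_succ (κ : (ι → ℕ) → ℕ) (n : ℕ) (D : Finset ι) (a : ι → ℕ) :
    Bc κ (n + 1) D a = fun σ => ∑ j ∈ D,
      (Phi κ n (D.erase j) a σ + Phi κ n (D.erase j) (up a j) σ) := rfl

lemma bd_Bc (Λ : Finset ℕ) (κ : (ι → ℕ) → ℕ) (hκ : ∀ a, κ a ∈ Λ) :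
    ∀ (n : ℕ) (D : Finset ι) (a : ι → ℕ) (σ : Finset ℕ), bd Λ (Bc κ n D a) σ = 0 := by
  intro n
  induction n with
  | zero =>
    intro D a σ
    unfold bd
    refine Finset.sum_eq_zero fun v _ => ?_
    simp [Bc]
  | succ n ih =>
    intro D a σ
    have hPhi : ∀ D' a' σ', bd Λ (Phi κ n D' a') σ' = Bc κ n D' a' σ' := by
      intro D' a' σ'
      unfold Phi
      rw [bd_cone Λ _ (hκ _)]
      have : bd Λ (Bc κ n D' a') = fun _ => 0 := funext (ih D' a')
      rw [this]
      simp [cone]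
    rw [Bc_succ, bd_sum]
    simp only [bd_add, hPhi]
    cases n with
    | zero => exact Finset.sum_eq_zero fun j _ => two_eq _
    | succ m =>
      simp only [Bc_succ, ← Finset.sum_add_distrib]
      rw [Finset.sum_sigma']
      refine Finset.sum_involution (fun p _ => ⟨p.2, p.1⟩) ?_ ?_ ?_ ?_
      · rintro ⟨j, i⟩ hp
        have h1 := mem_sigma.1 hp
        have hij : i ≠ j := (mem_erase.1 h1.2).1
        simp only
        rw [erase_right_comm (a := i) (b := j), up_comm a i j hij]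
        generalize Phi κ m _ a σ = x
        generalize Phi κ m _ (up a i) σ = y
        generalize Phi κ m _ (up a j) σ = z
        generalize Phi κ m _ (up (up a j) i) σ = w
        revert x y z w; decide
      · rintro ⟨j, i⟩ hp _ h
        have h1 := mem_sigma.1 hp
        have hij : i ≠ j := (mem_erase.1 h1.2).1
        exact hij (congrArg Sigma.fst h)
      · rintro ⟨j, i⟩ hp
        have h1 := mem_sigma.1 hp
        have h2 := mem_erase.1 h1.2
        exact mem_sigma.2 ⟨h2.2, mem_erase.2 ⟨h2.1.symm, h1.1⟩⟩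
      · rintro ⟨j, i⟩ _
        rfl

lemma bd_Phi (Λ : Finset ℕ) (κ : (ι → ℕ) → ℕ) (hκ : ∀ a, κ a ∈ Λ) (n : ℕ) (D : Finset ι)
    (a : ι → ℕ) (σ : Finset ℕ) : bd Λ (Phi κ n D a) σ = Bc κ n D a σ := by
  unfold Phi
  rw [bd_cone Λ _ (hκ _)]
  have : bd Λ (Bc κ n D a) = fun _ => 0 := funext (bd_Bc Λ κ hκ n D a)
  rw [this]
  simp [cone]

/-- `σ` consists of labels of vertices of the unit cube at `a` with directions `D`. -/
def Lab (κ : (ι → ℕ) → ℕ) (D : Finset ι) (a : ι → ℕ) (σ : Finset ℕ) : Prop :=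
  ∀ k ∈ σ, ∃ b : ι → ℕ, (∀ i, a i ≤ b i ∧ b i ≤ a i + 1) ∧ (∀ i, i ∉ D → b i = a i) ∧ κ b = k

omit [DecidableEq ι] in
lemma lab_cone (κ : (ι → ℕ) → ℕ) (D : Finset ι) (a : ι → ℕ) (c : Finset ℕ → ZMod 2)
    (hc : ∀ σ, c σ ≠ 0 → Lab κ D a σ) (σ : Finset ℕ) (h : cone (κ a) c σ ≠ 0) : Lab κ D a σ := by
  unfold cone at h
  split_ifs at h with h1
  · intro k hk
    by_cases hk' : k = κ a
    · exact ⟨a, fun i => ⟨le_rfl, by omega⟩, fun _ _ => rfl, hk'.symm⟩
    · exact hc _ h k (mem_erase.2 ⟨hk', hk⟩)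
  · exact absurd rfl h

lemma lab_Bc (κ : (ι → ℕ) → ℕ) : ∀ (n : ℕ) (D : Finset ι) (a : ι → ℕ) (σ : Finset ℕ),
    Bc κ n D a σ ≠ 0 → Lab κ D a σ := by
  intro n
  induction n with
  | zero =>
    intro D a σ h k hk
    have : σ = ∅ := by
      by_contra hh
      exact h (if_neg hh)
    subst this
    simp at hk
  | succ n ih =>
    intro D a σ h
    rw [Bc_succ] at h
    obtain ⟨j, hj, h1⟩ := Finset.exists_ne_zero_of_sum_ne_zero h
    have h2 : Phi κ n (D.erase j) a σ ≠ 0 ∨ Phi κ n (D.erase j) (up a j) σ ≠ 0 := by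
      by_contra hh
      push Not at hh
      exact h1 (by rw [hh.1, hh.2, add_zero])
    intro k hk
    rcases h2 with h2 | h2
    · obtain ⟨b, b1, b2, b3⟩ := lab_cone κ _ _ _ (ih _ _) σ h2 k hk
      exact ⟨b, b1, fun i hi => b2 i (fun hh => hi (mem_of_mem_erase hh)), b3⟩
    · obtain ⟨b, b1, b2, b3⟩ := lab_cone κ _ _ _ (ih _ _) σ h2 k hk
      refine ⟨b, fun i => ?_, fun i hi => ?_, b3⟩
      · by_cases hij : i = j
        · subst hij
          have := b2 i (notMem_erase _ _)
          simp only [up, Function.update_self] at this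
          omega
        · have := b1 i
          simpa only [up, Function.update_of_ne hij] using this
      · have hij : i ≠ j := fun hh => hi (hh ▸ hj)
        have := b2 i (fun hh => hi (mem_of_mem_erase hh))
        simpa only [up, Function.update_of_ne hij] using this

lemma lab_Phi (κ : (ι → ℕ) → ℕ) (n : ℕ) (D : Finset ι) (a : ι → ℕ) (σ : Finset ℕ)
    (h : Phi κ n D a σ ≠ 0) : Lab κ D a σ :=
  lab_cone κ D a _ (lab_Bc κ n D a) σ h

/-- Lower corners of the unit cubes of a big box. -/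
noncomputable def box (N : ℕ) (D : Finset ι) (b : ι → ℕ) : Finset (ι → ℕ) := by
  classical
  exact (D.pi (fun _ => range N)).image (fun p i => if h : i ∈ D then p i h else b i)

lemma mem_box {N : ℕ} {D : Finset ι} {b a : ι → ℕ} :
    a ∈ box N D b ↔ (∀ i ∈ D, a i < N) ∧ ∀ i, i ∉ D → a i = b i := by
  classical
  unfold box
  simp only [mem_image, mem_pi, mem_range]
  constructor
  · rintro ⟨p, hp, rfl⟩
    exact ⟨fun i hi => by simpa [hi] using hp i hi, fun i hi => by simp [hi]⟩
  · rintro ⟨h1, h2⟩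
    refine ⟨fun i _ => a i, h1, ?_⟩
    funext i
    split_ifs with h
    · rfl
    · exact (h2 i h).symm

lemma sum_box_split (N : ℕ) (D : Finset ι) (b : ι → ℕ) (j : ι) (hj : j ∈ D)
    (g : (ι → ℕ) → ZMod 2) :
    ∑ a ∈ box N D b, g a =
      ∑ a ∈ box N (D.erase j) (Function.update b j 0), ∑ t ∈ range N, g (Function.update a j t) := by
  rw [← Finset.sum_product']
  refine Finset.sum_nbij' (fun a => (Function.update a j 0, a j))
    (fun p => Function.update p.1 j p.2) ?_ ?_ ?_ ?_ ?_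
  · intro a ha
    have h := mem_box.1 ha
    refine mem_product.2 ⟨mem_box.2 ⟨fun i hi => ?_, fun i hi => ?_⟩, mem_range.2 (h.1 j hj)⟩
    · have hi' := mem_erase.1 hi
      simp only [Function.update_of_ne hi'.1]
      exact h.1 i hi'.2
    · by_cases hij : i = j
      · subst hij; simp
      · simp only [Function.update_of_ne hij]
        exact h.2 i (fun hh => hi (mem_erase.2 ⟨hij, hh⟩))
  · rintro ⟨a, t⟩ hp
    have h := mem_product.1 hp
    have h1 := mem_box.1 h.1
    refine mem_box.2 ⟨fun i hi => ?_, fun i hi => ?_⟩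
    · by_cases hij : i = j
      · subst hij; simpa using h.2
      · simp only [Function.update_of_ne hij]
        exact h1.1 i (mem_erase.2 ⟨hij, hi⟩)
    · have hij : i ≠ j := fun hh => hi (hh ▸ hj)
      have := h1.2 i (fun hh => hi (mem_of_mem_erase hh))
      simpa only [Function.update_of_ne hij] using this
  · intro a _
    simp
  · rintro ⟨a, t⟩ hp
    have h := mem_product.1 hp
    have h1 := (mem_box.1 h.1).2 j (notMem_erase _ _)
    simp only [Function.update_self] at h1
    simp only [Function.update_idem, Function.update_self, Prod.mk.injEq, and_true]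
    rw [← h1, Function.update_eq_self]
  · intro a _
    simp

lemma sum_box_top (N : ℕ) (D : Finset ι) (b : ι → ℕ) (j : ι) (hj : j ∉ D) (m : ℕ)
    (g : (ι → ℕ) → ZMod 2) :
    ∑ a ∈ box N D (Function.update b j 0), g (Function.update a j m) =
      ∑ a ∈ box N D (Function.update b j m), g a := by
  refine Finset.sum_nbij' (fun a => Function.update a j m) (fun a => Function.update a j 0)
    ?_ ?_ ?_ ?_ ?_
  · intro a ha
    have h := mem_box.1 ha
    refine mem_box.2 ⟨fun i hi => ?_, fun i hi => ?_⟩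
    · have hij : i ≠ j := fun hh => hj (hh ▸ hi)
      simp only [Function.update_of_ne hij]; exact h.1 i hi
    · by_cases hij : i = j
      · subst hij; simp
      · have := h.2 i hi
        simpa only [Function.update_of_ne hij] using this
  · intro a ha
    have h := mem_box.1 ha
    refine mem_box.2 ⟨fun i hi => ?_, fun i hi => ?_⟩
    · have hij : i ≠ j := fun hh => hj (hh ▸ hi)
      simp only [Function.update_of_ne hij]; exact h.1 i hi
    · by_cases hij : i = j
      · subst hij; simp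
      · have := h.2 i hi
        simpa only [Function.update_of_ne hij] using this
  · intro a ha
    have h1 := (mem_box.1 ha).2 j hj
    simp only [Function.update_self] at h1
    simp only [Function.update_idem]
    rw [← h1, Function.update_eq_self]
  · intro a ha
    have h1 := (mem_box.1 ha).2 j hj
    simp only [Function.update_self] at h1
    simp only [Function.update_idem]
    rw [← h1, Function.update_eq_self]
  · intro a _
    rfl

lemma sum_range_tele (h : ℕ → ZMod 2) (N : ℕ) :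
    ∑ t ∈ range N, (h t + h (t + 1)) = h 0 + h N := by
  induction N with
  | zero => simp [two_eq]
  | succ N ih =>
    rw [Finset.sum_range_succ, ih]
    generalize h 0 = x
    generalize h N = y
    generalize h (N + 1) = z
    revert x y z; decide

lemma sum_box_tele (N : ℕ) (D : Finset ι) (b : ι → ℕ) (j : ι) (hj : j ∈ D)
    (g : (ι → ℕ) → ZMod 2) :
    ∑ a ∈ box N D b, (g a + g (up a j)) =
      ∑ a ∈ box N (D.erase j) (Function.update b j 0), g a +
        ∑ a ∈ box N (D.erase j) (Function.update b j N), g a := by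
  rw [sum_box_split N D b j hj, ← sum_box_top N _ b j (notMem_erase _ _) N,
    ← sum_box_top N (D.erase j) b j (notMem_erase _ _) 0 g, ← Finset.sum_add_distrib]
  refine Finset.sum_congr rfl fun a _ => ?_
  rw [← sum_range_tele (fun t => g (Function.update a j t)) N]
  refine Finset.sum_congr rfl fun t _ => ?_
  simp [up]

/-- The image of a big box. -/
noncomputable def Psi (κ : (ι → ℕ) → ℕ) (N n : ℕ) (D : Finset ι) (b : ι → ℕ) (σ : Finset ℕ) :
    ZMod 2 := ∑ a ∈ box N D b, Phi κ n D a σ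

theorem bd_Psi (Λ : Finset ℕ) (κ : (ι → ℕ) → ℕ) (hκ : ∀ a, κ a ∈ Λ) (N n : ℕ) (D : Finset ι)
    (b : ι → ℕ) (σ : Finset ℕ) :
    bd Λ (Psi κ N (n + 1) D b) σ = ∑ j ∈ D, (Psi κ N n (D.erase j) (Function.update b j 0) σ +
      Psi κ N n (D.erase j) (Function.update b j N) σ) := by
  unfold Psi
  rw [bd_sum]
  simp only [bd_Phi Λ κ hκ, Bc_succ]
  rw [Finset.sum_comm]
  refine Finset.sum_congr rfl fun j hj => ?_
  exact sum_box_tele N D b j hj (fun a => Phi κ n (D.erase j) a σ)

lemma lab_Psi (κ : (ι → ℕ) → ℕ) (N n : ℕ) (D : Finset ι) (b : ι → ℕ) (σ : Finset ℕ)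
    (h : Psi κ N n D b σ ≠ 0) : ∃ a, (∀ i, i ∉ D → a i = b i) ∧ Lab κ D a σ := by
  obtain ⟨a, ha, h1⟩ := Finset.exists_ne_zero_of_sum_ne_zero h
  exact ⟨a, (mem_box.1 ha).2, lab_Phi κ n D a σ h1⟩

lemma Psi_zero (κ : (ι → ℕ) → ℕ) (N : ℕ) (b : ι → ℕ) : Psi κ N 0 ∅ b {κ b} = 1 := by
  unfold Psi
  have : box N ∅ b = {b} := by
    ext a
    simp only [mem_box, mem_singleton]
    constructor
    · intro h; funext i; exact h.2 i (by simp)
    · rintro rfl; simp
  rw [this]
  simp [Phi, cone, Bc]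

end Pool.Agent.Lib.MP_17e614_gt
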