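import Pool.Agent.Lib.MP_17e614_gt.Space

/-! The diagonal choice of the teeth; no homotopy pushes the space off the origin. -/

namespace Pool.Agent.Lib.MP_17e614_gt

open Set Filter Topology

/-- Closed subsets of a second countable space are coded by the Cantor set, with a free bit. -/
lemma exists_decode (Y : Type*) [TopologicalSpace Y] [SecondCountableTopology Y] :
    ∃ dec : (ℕ → Bool) → Set Y, (∀ t, IsClosed (dec t)) ∧
      ∀ G, IsClosed G → ∀ c : Bool, ∃ t, t 0 = c ∧ dec t = G := by
  classical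
  obtain ⟨B, hB1, -, hB2⟩ := TopologicalSpace.exists_countable_basis Y
  obtain ⟨b, hb⟩ := (hB1.insert ∅).exists_eq_range (insert_nonempty _ _)
  have hbo : ∀ n, IsOpen (b n) := by
    intro n
    have : b n ∈ insert ∅ B := hb ▸ mem_range_self n
    rcases this with h | h
    · rw [h]; exact isOpen_empty
    · exact hB2.isOpen h
  refine ⟨fun t => (⋃ n, ⋃ (_ : t (n + 1) = true), b n)ᶜ,
    fun t => (isOpen_iUnion fun n => isOpen_iUnion fun _ => hbo n).isClosed_compl,
    fun G hG c => ⟨fun n => Nat.casesOn n c (fun m => decide (b m ⊆ Gᶜ)), rfl, ?_⟩⟩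
  rw [compl_eq_comm]
  ext y
  simp only [mem_iUnion, decide_eq_true_eq]
  constructor
  · intro hy
    obtain ⟨U, hU1, hU2, hU3⟩ := hB2.exists_subset_of_mem_open hy hG.isOpen_compl
    have : U ∈ range b := hb ▸ mem_insert_of_mem _ hU1
    obtain ⟨n, rfl⟩ := this
    exact ⟨n, hU3, hU2⟩
  · rintro ⟨n, h1, h2⟩
    exact h1 h2

/-- The point lies in a tooth with Cantor coordinate `t`. -/
def OwnP (t : ℕ → Bool) (x : Amb) : Prop :=
  0 < x (.inl 0) ∧ ∀ n, x (.inr (.inr n)) = x (.inl 0) * bit t n

/-- The conditions on the value of an escape path. -/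
def Cond (t : ℕ → Bool) (p : Option ℕ → ℝ) (x : Amb) : Prop :=
  (∀ i, x i ∈ Icc (0 : ℝ) 1) ∧ (∃ k, 0 < x (.inl k)) ∧
  (∀ n, x (.inr (.inr n)) = 0 ∨ x (.inr (.inr n)) = x (.inl 0)) ∧
  (OwnP t x → ∀ k l, k < l → 0 < x (.inl k) → 0 < x (.inl l) → |p (some k)| ≤ l) ∧
  (p none = 1 → OwnP t x ∧ ∀ k, 0 < k → x (.inl k) = 0) ∧ (p none = 0 → ¬ OwnP t x)

lemma not_all (t : ℕ → Bool) (G : Set (((ℕ → Bool) × (Option ℕ → ℝ)) × Amb)) (hG : IsClosed G) :
    ∃ ρ : ℕ → ℝ, ¬ ∀ p : Option ℕ → ℝ, (∀ k, p (some k) = ρ k) →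
      ∃ x, (∀ y, ((t, p), y) ∈ G ↔ y = x) ∧ Cond t p x := by
  by_contra h
  push Not at h
  choose F hF1 hF2 using fun p : Option ℕ → ℝ => h (fun k => p (some k)) p (fun _ => rfl)
  have hK : IsCompact (Set.pi univ fun _ : ℕ ⊕ ℕ ⊕ ℕ => Icc (0 : ℝ) 1) :=
    isCompact_univ_pi fun _ => isCompact_Icc
  have hFc : Continuous F := by
    rw [continuous_iff_ultrafilter]
    intro p U hU
    obtain ⟨x, -, hx⟩ := hK.ultrafilter_le_nhds (U.map F)
      (le_principal_iff.2 (mem_map.2 (Eventually.of_forall fun p' i _ => (hF2 p').1 i)))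
    have t1 : Tendsto (fun p' => ((t, p'), F p')) U (𝓝 ((t, p), x)) :=
      (tendsto_const_nhds.prodMk_nhds hU).prodMk_nhds hx
    have : ((t, p), x) ∈ G :=
      hG.mem_of_tendsto t1 (Eventually.of_forall fun p' => (hF1 p' _).2 rfl)
    rw [← (hF1 p x).1 this]
    exact hx
  refine slice (fun p k => F p (.inl k)) (fun k => (continuous_apply _).comp hFc)
    (fun p => OwnP t (F p)) (fun p k => ((hF2 p).1 _).1) (fun p => (hF2 p).2.1) ?_
    (fun p => (hF2 p).2.2.2.1) (fun p => (hF2 p).2.2.2.2.1) (fun p => (hF2 p).2.2.2.2.2)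
  intro p p' hseg hown
  let seg : ℝ → Option ℕ → ℝ := fun θ d => p d + θ * (p' d - p d)
  have s0 : seg 0 = p := by funext d; simp [seg]
  have s1 : seg 1 = p' := by funext d; simp [seg]
  have hsc : Continuous seg := continuous_pi fun d =>
    continuous_const.add (continuous_id.mul continuous_const)
  have hp' : 0 < F p' (.inl 0) := by
    have := hseg 1 ⟨zero_le_one, le_rfl⟩
    rwa [show (fun d => p d + 1 * (p' d - p d)) = p' from s1] at this
  refine ⟨hp', fun n => ?_⟩
  let g : ℝ → ℝ := fun θ => 2 * F (seg θ) (.inr (.inr n)) - F (seg θ) (.inl 0)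
  have hg : Continuous g :=
    (continuous_const.mul ((continuous_apply _).comp (hFc.comp hsc))).sub
      ((continuous_apply _).comp (hFc.comp hsc))
  have hg0 : ∀ θ ∈ Icc (0 : ℝ) 1, g θ ≠ 0 := by
    intro θ hθ h0
    have h1 : 0 < F (seg θ) (.inl 0) := hseg θ hθ
    simp only [g] at h0
    rcases (hF2 (seg θ)).2.2.1 n with h2 | h2 <;> rw [h2] at h0 <;> linarith
  have e0 : g 0 = 2 * (F p (.inl 0) * bit t n) - F p (.inl 0) := by
    simp only [g, s0, hown.2 n]
  have e1 : g 1 = 2 * F p' (.inr (.inr n)) - F p' (.inl 0) := by simp only [g, s1]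
  have hp := hown.1
  rcases bit_cases t n with hb | hb <;> rcases (hF2 p').2.2.1 n with h2 | h2
  · rw [h2, hb, mul_zero]
  · exfalso
    obtain ⟨θ, hθ, h3⟩ := intermediate_value_Icc zero_le_one hg.continuousOn
      (show (0 : ℝ) ∈ Icc (g 0) (g 1) by rw [e0, e1, hb, h2]; constructor <;> linarith)
    exact hg0 θ hθ h3
  · exfalso
    obtain ⟨θ, hθ, h3⟩ := intermediate_value_Icc' zero_le_one hg.continuousOn
      (show (0 : ℝ) ∈ Icc (g 1) (g 0) by rw [e0, e1, hb, h2]; constructor <;> linarith)
    exact hg0 θ hθ h3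
  · rw [h2, hb, mul_one]

/-- The segment from the origin to the tip of a tooth. -/
noncomputable def tip (y : (ℕ → Bool) × (Option ℕ → ℝ)) : Amb
  | .inl k => if k = 0 then (projIcc (0 : ℝ) 1 zero_le_one (y.2 none) : ℝ) *
      rad (fun i => y.2 (some i)) 0 else 0
  | .inr (.inl k) => (projIcc (0 : ℝ) 1 zero_le_one (y.2 none) : ℝ) *
      rad (fun i => y.2 (some i)) 0 * rad (fun i => y.2 (some i)) k
  | .inr (.inr n) => (projIcc (0 : ℝ) 1 zero_le_one (y.2 none) : ℝ) *
      rad (fun i => y.2 (some i)) 0 * bit y.1 n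

lemma continuous_u : Continuous fun y : (ℕ → Bool) × (Option ℕ → ℝ) =>
    projIcc (0 : ℝ) 1 zero_le_one (y.2 none) :=
  continuous_projIcc.comp ((continuous_apply none).comp continuous_snd)

lemma continuous_tip : Continuous tip := by
  have hu := continuous_subtype_val.comp continuous_u
  have hr : ∀ k, Continuous fun y : (ℕ → Bool) × (Option ℕ → ℝ) =>
      rad (fun i => y.2 (some i)) k := by
    intro k
    unfold rad
    refine continuous_const.div (continuous_const.add
      ((continuous_apply (some k)).comp continuous_snd).abs) fun y => ?_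
    positivity
  have hb : ∀ n, Continuous fun y : (ℕ → Bool) × (Option ℕ → ℝ) => bit y.1 n := by
    intro n
    exact (continuous_of_discreteTopology (f := fun b : Bool => if b then (1 : ℝ) else 0)).comp
      ((continuous_apply n).comp continuous_fst)
  refine continuous_pi fun i => ?_
  rcases i with k | k | n
  · simp only [tip]
    split_ifs
    · exact hu.mul (hr 0)
    · exact continuous_const
  · exact (hu.mul (hr 0)).mul (hr k)
  · exact (hu.mul (hr 0)).mul (hb n)

lemma tip_tooth (y : (ℕ → Bool) × (Option ℕ → ℝ)) :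
    InTooth y.1 (fun i => y.2 (some i)) (tip y) := by
  have h0 := (projIcc (0 : ℝ) 1 zero_le_one (y.2 none)).2.1
  have h1 := (projIcc (0 : ℝ) 1 zero_le_one (y.2 none)).2.2
  refine ⟨fun k => ?_, fun k l hkl _ hl => ?_, fun k => ?_, fun n => ?_⟩
  · simp only [tip]
    split_ifs with h
    · subst h
      have := rad_pos (fun i => y.2 (some i)) 0
      exact ⟨by positivity, mul_le_of_le_one_left this.le h1⟩
    · exact ⟨le_rfl, (rad_pos _ _).le⟩
  · simp only [tip] at hl
    rw [if_neg (by omega)] at hl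
    exact absurd hl (lt_irrefl _)
  · simp [tip]
  · simp [tip]

lemma bit_inj {t t' : ℕ → Bool} (h : ∀ n, bit t n = bit t' n) : t = t' := by
  funext n
  have := h n
  unfold bit at this
  cases h1 : t n <;> cases h2 : t' n <;> simp_all

theorem exists_not_H : ∃ z : (ℕ → Bool) → ℕ → ℝ,
    ¬ ∃ f : Sp z × unitInterval → Sp z, Continuous f ∧ (∀ x, f (x, 0) = x) ∧
      ∀ x t, t ≠ 0 → f (x, t) ≠ ⟨0, zero_mem z⟩ := by
  obtain ⟨dec, hdec1, hdec2⟩ := exists_decode (((ℕ → Bool) × (Option ℕ → ℝ)) × Amb)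
  choose z hz using fun t => not_all t (dec t) (hdec1 t)
  refine ⟨z, ?_⟩
  rintro ⟨f, hf, hf0, hf1⟩
  let Y : Set ((ℕ → Bool) × (Option ℕ → ℝ)) := {y | ∀ k, y.2 (some k) = z y.1 k}
  have hmem : ∀ y : Y, tip y ∈ Sp z := by
    intro y
    refine Or.inr ⟨y.1.1, ?_⟩
    have := tip_tooth y
    rwa [show (fun i => y.1.2 (some i)) = z y.1.1 from funext y.2] at this
  let F : Y → Sp z := fun y =>
    f (⟨tip y, hmem y⟩, unitInterval.symm (projIcc (0 : ℝ) 1 zero_le_one (y.1.2 none)))
  have hF : Continuous F :=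
    hf.comp (((continuous_tip.comp continuous_subtype_val).subtype_mk _).prodMk
      (unitInterval.continuous_symm.comp (continuous_u.comp continuous_subtype_val)))
  let x₀ : Sp z := f (⟨0, zero_mem z⟩, 1)
  obtain ⟨c, hc⟩ : ∃ c : Bool, ∀ t : ℕ → Bool, t 0 = c → ¬ OwnP t x₀ := by
    by_cases h : (x₀ : Amb) (.inr (.inr 0)) = 0
    · refine ⟨true, fun t ht ho => ?_⟩
      have h1 := ho.2 0
      have h2 := ho.1
      rw [h, bit, ht] at h1
      simp only [if_true, mul_one] at h1
      linarith
    · refine ⟨false, fun t ht ho => h ?_⟩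
      rw [ho.2 0, bit, ht]
      simp
  obtain ⟨t, ht0, ht⟩ := hdec2 (closure (range fun y : Y => (y.1, (F y : Amb)))) isClosed_closure c
  apply hz t
  intro p hp
  let y : Y := ⟨(t, p), hp⟩
  have hone : projIcc (0 : ℝ) 1 zero_le_one (p none) = 1 → (F y : Amb) = tip (t, p) := by
    intro h
    have : unitInterval.symm (projIcc (0 : ℝ) 1 zero_le_one (y.1.2 none)) = 0 := by
      show unitInterval.symm (projIcc (0 : ℝ) 1 zero_le_one (p none)) = 0
      rw [h, unitInterval.symm_one]
    simp only [F]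
    rw [this, hf0]
  have htip : projIcc (0 : ℝ) 1 zero_le_one (p none) = 1 → 0 < tip (t, p) (.inl 0) := by
    intro h
    simp only [tip, if_true, h]
    have := rad_pos (fun i => p (some i)) 0
    simpa using this
  refine ⟨F y, fun x => ?_, fun i => fact_unit (F y).2 i, ?_, fun n => fact_b (F y).2 n, ?_, ?_, ?_⟩
  · rw [ht]
    constructor
    · intro hx
      obtain ⟨u, hu1, hu2⟩ := mem_closure_iff_seq_limit.1 hx
      choose w hw using hu1
      have t1 : Tendsto w atTop (𝓝 y) := by
        rw [tendsto_subtype_rng]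
        have := (continuous_fst.tendsto _).comp hu2
        refine this.congr fun n => ?_
        simp only [Function.comp, ← hw n]
      have t2 : Tendsto (fun n => (F (w n) : Amb)) atTop (𝓝 x) := by
        have := (continuous_snd.tendsto _).comp hu2
        refine this.congr fun n => ?_
        simp only [Function.comp, ← hw n]
      exact tendsto_nhds_unique t2 (((continuous_subtype_val.comp hF).tendsto y).comp t1)
    · rintro rfl
      exact subset_closure ⟨y, rfl⟩
  · by_contra hh
    push Not at hh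
    have hs : ∀ k, (F y : Amb) (.inl k) = 0 := fun k => le_antisymm (hh k) (fact_s (F y).2 k).1
    by_cases h : projIcc (0 : ℝ) 1 zero_le_one (p none) = 1
    · have := htip h
      rw [← hone h, hs 0] at this
      exact lt_irrefl _ this
    · refine hf1 ⟨tip y, hmem y⟩ (unitInterval.symm (projIcc (0 : ℝ) 1 zero_le_one (p none)))
        (fun h' => h (unitInterval.symm_eq_zero.1 h')) (Subtype.ext ?_)
      funext i
      rcases i with k | m
      · exact hs k
      · exact le_antisymm ((fact_r (F y).2 m).2.trans (hs 0).le) (fact_r (F y).2 m).1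
  · intro ho
    rcases (F y).2 with h | ⟨t', h⟩
    · have := ho.1
      rw [h.1] at this
      exact absurd this (lt_irrefl _)
    · have : t = t' := bit_inj fun n => by
        have h1 := ho.2 n
        rw [h.2.2.2 n] at h1
        exact (mul_left_cancel₀ ho.1.ne' h1).symm
      subst this
      intro k l hkl hk hl
      rw [hp k]
      exact h.2.1 k l hkl hk hl
  · intro h
    have h' : projIcc (0 : ℝ) 1 zero_le_one (p none) = 1 := by rw [h, projIcc_right]; rfl
    rw [hone h']
    refine ⟨⟨htip h', (tip_tooth (t, p)).2.2.2⟩, fun k hk => ?_⟩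
    simp only [tip]
    rw [if_neg (by omega)]
  · intro h
    have h' : projIcc (0 : ℝ) 1 zero_le_one (p none) = 0 := by rw [h, projIcc_left]; rfl
    have e1 : (⟨tip y, hmem y⟩ : Sp z) = ⟨0, zero_mem z⟩ := by
      apply Subtype.ext
      funext i
      rcases i with k | k | n <;> simp [tip, y, h']
    have e2 : F y = x₀ := by
      simp only [F, x₀]
      rw [e1]
      congr 2
      show unitInterval.symm (projIcc (0 : ℝ) 1 zero_le_one (p none)) = 1
      rw [h', unitInterval.symm_zero]
    rw [e2]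
    exact hc t ht0

end Pool.Agent.Lib.MP_17e614_gt
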