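import Pool.Agent.Lib.MP_17e614_gt.Cube

/-! The parity contradiction on a labelled grid. -/

namespace Pool.Agent.Lib.MP_17e614_gt

open Finset

/-- The simplex without its top vertex. -/
def low (σ : Finset ℕ) : Finset ℕ := σ.erase (σ.sup id)

lemma lt_of_mem_low {σ : Finset ℕ} {i : ℕ} (hi : i ∈ low σ) : i < σ.sup id := by
  have h := mem_erase.1 hi
  have : i ≤ σ.sup id := Finset.le_sup (f := id) h.2
  omega

lemma sup_mem {σ : Finset ℕ} (h : σ.Nonempty) : σ.sup id ∈ σ := by
  obtain ⟨i, hi, h1⟩ := Finset.exists_mem_eq_sup σ h id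
  rw [h1]; exact hi

lemma insert_low {σ : Finset ℕ} (h : σ.Nonempty) : insert (σ.sup id) (low σ) = σ :=
  insert_erase (sup_mem h)

lemma sup_eq_of {σ : Finset ℕ} {m : ℕ} (hm : m ∈ σ) (h : ∀ i ∈ σ, i ≤ m) : σ.sup id = m :=
  le_antisymm (Finset.sup_le h) (Finset.le_sup (f := id) hm)

lemma low_erase {σ : Finset ℕ} {j : ℕ} (hj : j ∈ low σ) : low (σ.erase j) = (low σ).erase j := by
  have hne : σ.Nonempty := ⟨j, mem_of_mem_erase hj⟩
  have h1 : (σ.erase j).sup id = σ.sup id :=
    sup_eq_of (mem_erase.2 ⟨(lt_of_mem_low hj).ne', sup_mem hne⟩)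
      (fun i hi => Finset.le_sup (f := id) (mem_of_mem_erase hi))
  unfold low
  rw [h1, erase_right_comm]

lemma insertNone_erase_some (τ : Finset ℕ) (j : ℕ) :
    (insertNone τ).erase (some j) = insertNone (τ.erase j) := by
  ext o
  cases o with
  | none => simp
  | some i => simp

/-- reindexing pairs (simplex, new vertex). -/
lemma sum_pairs (Λ : Finset ℕ) (F : Finset ℕ → Finset ℕ → ZMod 2) :
    ∑ σ ∈ Λ.powerset, ∑ v ∈ Λ, (if v ∈ σ then 0 else F σ (insert v σ)) =
      ∑ σ ∈ Λ.powerset, ∑ v ∈ σ, F (σ.erase v) σ := by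
  have h1 : ∀ σ : Finset ℕ, ∑ v ∈ Λ, (if v ∈ σ then 0 else F σ (insert v σ)) =
      ∑ v ∈ Λ.filter (· ∉ σ), F σ (insert v σ) := by
    intro σ
    rw [Finset.sum_filter]
    refine Finset.sum_congr rfl fun v _ => ?_
    split_ifs <;> rfl
  simp only [h1]
  rw [Finset.sum_sigma', Finset.sum_sigma']
  refine Finset.sum_nbij' (fun p => ⟨insert p.2 p.1, p.2⟩) (fun p => ⟨p.1.erase p.2, p.2⟩)
    ?_ ?_ ?_ ?_ ?_
  · rintro ⟨σ, v⟩ hp
    have h := mem_sigma.1 hp
    have h2 := mem_filter.1 h.2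
    exact mem_sigma.2 ⟨mem_powerset.2 (insert_subset h2.1 (mem_powerset.1 h.1)),
      mem_insert_self _ _⟩
  · rintro ⟨σ, v⟩ hp
    have h := mem_sigma.1 hp
    exact mem_sigma.2 ⟨mem_powerset.2 ((erase_subset _ _).trans (mem_powerset.1 h.1)),
      mem_filter.2 ⟨mem_powerset.1 h.1 h.2, notMem_erase _ _⟩⟩
  · rintro ⟨σ, v⟩ hp
    have h2 := mem_filter.1 (mem_sigma.1 hp).2
    simp only [erase_insert h2.2]
  · rintro ⟨σ, v⟩ hp
    have h2 : v ∈ σ := (mem_sigma.1 hp).2
    simp only [insert_erase h2]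
  · rintro ⟨σ, v⟩ hp
    have h2 := mem_filter.1 (mem_sigma.1 hp).2
    simp only [erase_insert h2.2]

theorem grid {T : ℕ → (ℕ → ℕ) → Prop} {χ : Finset ℕ → ZMod 2} {ν : ℕ} (hχ : Good χ ν)
    (hsol : Sol T χ) (N : ℕ) (κ : (Option ℕ → ℕ) → ℕ) (Λ₀ : Finset ℕ) (hκ : ∀ a, κ a ∈ Λ₀)
    (c : (Option ℕ → ℕ) → ℕ → ℕ)
    (h0 : ∀ b, b none = 0 → κ b ≠ 0) (h1 : ∀ b, b none = N → κ b = 0)
    (c0 : ∀ a i, a (some i) = 0 → c a i = 0) (cN : ∀ a i, a (some i) = N → ν < c a i)
    (H : ∀ D a σ, 0 ∈ σ → Lab κ D a σ →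
      (∀ k ∈ σ, ∀ l ∈ σ, k < l → c a k ≤ l) ∧ ∀ v ∈ σ, 0 < v → T v (c a)) : False := by
  classical
  set Λ := Λ₀ ∪ range (ν + 1) with hΛ
  have hκ' : ∀ a, κ a ∈ Λ := fun a => mem_union_left _ (hκ a)
  let W : Finset ℕ → Finset ℕ → ZMod 2 := fun τ σ =>
    Psi κ N (τ.card + 1) (insertNone τ) (fun _ => 0) σ
  -- the boundary equation
  have E : ∀ σ : Finset ℕ, 0 ∈ σ → (∀ i ∈ σ, i ≤ ν) →
      bd Λ (W (low σ)) σ = (if σ = {0} then 1 else 0) + ∑ j ∈ low σ, W ((low σ).erase j) σ := by
    intro σ hσ0 hσν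
    have hb := bd_Psi Λ κ hκ' N (low σ).card (insertNone (low σ)) (fun _ => 0) σ
    show bd Λ (Psi κ N ((low σ).card + 1) (insertNone (low σ)) (fun _ => 0)) σ = _
    rw [hb, Finset.sum_insertNone]
    congr 1
    · have z1 : Psi κ N (low σ).card ((insertNone (low σ)).erase none)
          (Function.update (fun _ => 0) none 0) σ = 0 := by
        by_contra hh
        obtain ⟨a, ha, hl⟩ := lab_Psi _ _ _ _ _ _ hh
        obtain ⟨b, -, b2, b3⟩ := hl 0 hσ0
        refine h0 b ?_ b3
        rw [b2 none (notMem_erase _ _), ha none (notMem_erase _ _)]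
        simp
      rw [z1, zero_add]
      split_ifs with hs
      · subst hs
        have e1 : low {0} = ∅ := by simp [low]
        have e2 : (insertNone (∅ : Finset ℕ)).erase none = ∅ := by
          ext o; cases o <;> simp
        rw [e1, e2, card_empty]
        have := Psi_zero κ N (Function.update (fun _ => 0) none N)
        rwa [h1 _ (by simp)] at this
      · by_contra hh
        obtain ⟨a, ha, hl⟩ := lab_Psi _ _ _ _ _ _ hh
        apply hs
        ext k
        simp only [mem_singleton]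
        constructor
        · intro hk
          obtain ⟨b, -, b2, b3⟩ := hl k hk
          rw [← b3]
          apply h1
          rw [b2 none (notMem_erase _ _), ha none (notMem_erase _ _)]
          simp
        · rintro rfl; exact hσ0
    · refine Finset.sum_congr rfl fun j hj => ?_
      have z1 : Psi κ N (low σ).card ((insertNone (low σ)).erase (some j))
          (Function.update (fun _ => 0) (some j) N) σ = 0 := by
        by_contra hh
        obtain ⟨a, ha, hl⟩ := lab_Psi _ _ _ _ _ _ hh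
        have a1 : a (some j) = N := by
          rw [ha (some j) (notMem_erase _ _)]; simp
        have hne : σ.Nonempty := ⟨0, hσ0⟩
        have := (H _ a σ hσ0 hl).1 j (mem_of_mem_erase hj) _ (sup_mem hne) (lt_of_mem_low hj)
        have h2 := cN a j a1
        have h3 := hσν _ (sup_mem hne)
        omega
      rw [z1, add_zero, insertNone_erase_some]
      have e : Function.update (fun _ : Option ℕ => 0) (some j) 0 = fun _ => 0 := by
        funext o; simp [Function.update_apply]
      rw [e]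
      show _ = Psi κ N (((low σ).erase j).card + 1) _ _ _
      rw [card_erase_add_one hj]
  -- allowedness
  have A : ∀ σ : Finset ℕ, 0 ∈ low σ → ∀ j ∈ low σ, W ((low σ).erase j) σ ≠ 0 →
      Con χ (low σ) (σ.sup id) j := by
    intro σ hσ0 j hj hW
    have hσ0' : 0 ∈ σ := mem_of_mem_erase hσ0
    have hne : σ.Nonempty := ⟨0, hσ0'⟩
    obtain ⟨a, ha, hl⟩ := lab_Psi _ _ _ _ _ _ hW
    obtain ⟨H1, H2⟩ := H _ a σ hσ0' hl
    refine hsol _ _ _ (c a) hσ0 (fun i hi => lt_of_mem_low hi) hj ⟨?_, ?_⟩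
      (H2 _ (sup_mem hne) (lt_of_mem_low hσ0))
    · intro i hi
      apply c0
      rw [ha (some i) (by simpa using hi)]
    · intro i hi k hk hik
      rw [insert_low hne] at hk
      exact H1 i (mem_of_mem_erase hi) k hk hik
  -- summation
  have S1 : ∑ σ ∈ Λ.powerset, χ σ * bd Λ (W (low σ)) σ =
      1 + ∑ σ ∈ Λ.powerset, ∑ j ∈ low σ, χ σ * W ((low σ).erase j) σ := by
    have : ∀ σ ∈ Λ.powerset, χ σ * bd Λ (W (low σ)) σ =
        (if σ = {0} then 1 else 0) + ∑ j ∈ low σ, χ σ * W ((low σ).erase j) σ := by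
      intro σ _
      by_cases hz : χ σ = 0
      · have : σ ≠ {0} := by
          rintro rfl
          rw [hχ.1] at hz
          exact one_ne_zero hz
        simp [hz, this]
      · rw [E σ (hχ.2 σ hz).1 (hχ.2 σ hz).2, mul_add, Finset.mul_sum]
        congr 1
        split_ifs with hs
        · rw [hs, hχ.1, mul_one]
        · simp
    rw [Finset.sum_congr rfl this, Finset.sum_add_distrib, Finset.sum_ite_eq', if_pos]
    exact mem_powerset.2 (by
      intro i hi
      rw [mem_singleton.1 hi]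
      exact mem_union_right _ (mem_range.2 (by omega)))
  have S2 : ∑ σ ∈ Λ.powerset, χ σ * bd Λ (W (low σ)) σ =
      ∑ σ ∈ Λ.powerset, ∑ v ∈ σ, χ (σ.erase v) * W (low (σ.erase v)) σ := by
    rw [← sum_pairs Λ (fun σ σ' => χ σ * W (low σ) σ')]
    refine Finset.sum_congr rfl fun σ _ => ?_
    unfold bd
    rw [Finset.mul_sum]
    refine Finset.sum_congr rfl fun v _ => ?_
    split_ifs <;> simp
  have S3 : ∀ σ : Finset ℕ, ∑ v ∈ σ, χ (σ.erase v) * W (low (σ.erase v)) σ =
      ∑ j ∈ low σ, χ σ * W ((low σ).erase j) σ := by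
    intro σ
    have hz : ∀ ρ : Finset ℕ, 0 ∉ ρ → χ ρ = 0 := fun ρ h => by
      by_contra hh
      exact h (hχ.2 ρ hh).1
    by_cases hσ0 : 0 ∈ low σ
    · have hne : σ.Nonempty := ⟨0, mem_of_mem_erase hσ0⟩
      have hne' : (low σ).Nonempty := ⟨0, hσ0⟩
      rw [← Finset.add_sum_erase σ _ (sup_mem hne)]
      show χ (low σ) * W (low (low σ)) σ + ∑ v ∈ low σ, _ = _
      have e1 : χ (low σ) * W (low (low σ)) σ = ∑ j ∈ low σ,
          (if (∀ i ∈ low σ, i ≤ j) then χ (low σ) else 0) * W ((low σ).erase j) σ := by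
        rw [← Finset.add_sum_erase _ _ (sup_mem hne'),
          if_pos (show ∀ i ∈ low σ, i ≤ (low σ).sup id from
            fun i hi => Finset.le_sup (f := id) hi), Finset.sum_eq_zero, add_zero]
        · rfl
        · intro j hj
          rw [if_neg, zero_mul]
          intro hh
          exact (mem_erase.1 hj).1 (sup_eq_of (mem_of_mem_erase hj) hh).symm
      rw [e1, ← Finset.sum_add_distrib]
      refine Finset.sum_congr rfl fun j hj => ?_
      rw [low_erase hj]
      by_cases hW : W ((low σ).erase j) σ = 0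
      · simp [hW]
      · have hc := A σ hσ0 j hj hW
        unfold Con at hc
        rw [insert_low hne] at hc
        have e2 : insert (σ.sup id) ((low σ).erase j) = σ.erase j := by
          rw [← erase_insert_of_ne (lt_of_mem_low hj).ne', insert_low hne]
        rw [e2] at hc
        rw [hc]; ring
    · rw [Finset.sum_eq_zero, Finset.sum_eq_zero]
      · intro j hj
        have : 0 ∉ σ := fun h => hσ0 (mem_erase.2 ⟨by have := lt_of_mem_low hj; omega, h⟩)
        rw [hz σ this, zero_mul]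
      · intro v hv
        have : 0 ∉ σ.erase v := by
          intro h
          have h' := mem_erase.1 h
          have : v ≤ σ.sup id := Finset.le_sup (f := id) hv
          exact hσ0 (mem_erase.2 ⟨by omega, h'.2⟩)
        rw [hz _ this, zero_mul]
  rw [S2, Finset.sum_congr rfl (fun σ _ => S3 σ)] at S1
  simp at S1

end Pool.Agent.Lib.MP_17e614_gt
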