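import Pool.Agent.Lib.MP_17e614_gt.Comb

/-! The improvement step. -/

namespace Pool.Agent.Lib.MP_17e614_gt

open Finset

/-- The improved function. -/
noncomputable def newChi (χ θ : Finset ℕ → ZMod 2) (μ : ℕ) (σ : Finset ℕ) : ZMod 2 :=
  if (∀ i ∈ σ, i ≤ μ) then (if 0 ∈ σ ∧ σ.card ≤ 2 then 1 else 0)
  else if (∃ k ∈ σ, 1 ≤ k ∧ k ≤ μ) then gsum χ σ * θ (σ.image (· - μ)) else 0

lemma newChi_good {χ θ : Finset ℕ → ZMod 2} {ν ν' : ℕ} (hχ : Good χ ν) (hθ : Good θ ν') (μ : ℕ) :
    Good (newChi χ θ μ) (μ + ν') := by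
  constructor
  · simp [newChi]
  · intro σ h
    unfold newChi at h
    split_ifs at h with h1 h2 h3
    · exact ⟨h2.1, fun i hi => by have := h1 i hi; omega⟩
    · exact absurd rfl h
    · refine ⟨gsum_ne_zero hχ.2 (left_ne_zero_of_mul h), fun i hi => ?_⟩
      have := (hθ.2 _ (right_ne_zero_of_mul h)).2 (i - μ) (mem_image.2 ⟨i, hi, rfl⟩)
      omega
    · exact absurd rfl h

lemma newChi_high (χ θ : Finset ℕ → ZMod 2) (μ : ℕ) (σ : Finset ℕ) (v : ℕ) (hv : v ∈ σ)
    (hμ : μ < v) : newChi χ θ μ σ =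
      if (∃ k ∈ σ, 1 ≤ k ∧ k ≤ μ) then gsum χ σ * θ (σ.image (· - μ)) else 0 := by
  unfold newChi
  rw [if_neg]
  intro h
  have := h v hv
  omega

lemma newChi_low (χ θ : Finset ℕ → ZMod 2) (μ : ℕ) (σ : Finset ℕ) (h : ∀ i ∈ σ, i ≤ μ) :
    newChi χ θ μ σ = if 0 ∈ σ ∧ σ.card ≤ 2 then 1 else 0 := by
  unfold newChi
  rw [if_pos h]

/-- The low case needs no hypothesis. -/
lemma con_low (χ θ : Finset ℕ → ZMod 2) (μ : ℕ) (τ : Finset ℕ) (v j : ℕ) (h0 : 0 ∈ τ)
    (hv : ∀ i ∈ τ, i < v) (hj : j ∈ τ) (hvμ : v ≤ μ) : Con (newChi χ θ μ) τ v j := by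
  unfold Con
  have hvτ : v ∉ τ := fun h => lt_irrefl _ (hv v h)
  have hvτ' : v ∉ τ.erase j := fun h => hvτ (mem_of_mem_erase h)
  have hv0 : 0 < v := hv 0 h0
  rw [newChi_low, newChi_low, newChi_low]
  · rw [card_insert_of_notMem hvτ, card_insert_of_notMem hvτ', card_erase_of_mem hj]
    have hpos : 0 < τ.card := card_pos.2 ⟨0, h0⟩
    by_cases hc1 : τ.card = 1
    · obtain ⟨a, rfl⟩ := card_eq_one.1 hc1
      have : a = 0 := (mem_singleton.1 h0).symm
      subst this
      have : j = 0 := mem_singleton.1 hj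
      subst this
      simp [hv0.ne]
    · by_cases hc2 : τ.card = 2
      · obtain ⟨a, b, hab, rfl⟩ := card_eq_two.1 hc2
        have hc : ({a, b} : Finset ℕ).card = 2 := hc2
        simp only [mem_insert, mem_singleton, hc] at *
        rcases h0 with rfl | rfl <;> rcases hj with rfl | rfl
        · have : ¬ (b ≤ 0) := by omega
          simp [hv0.ne, hab.symm]
        · simp [hab]; decide
        · simp [hab.symm]; decide
        · simp [hv0.ne, hab]
      · have a1 : ¬ (τ.card + 1 ≤ 2) := by omega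
        have a2 : ¬ (τ.card - 1 + 1 ≤ 2) := by omega
        have a3 : ¬ (τ.card ≤ 2) := by omega
        simp [a1, a2, a3]
  · intro i hi; have := hv i hi; omega
  · intro i hi
    rcases mem_insert.1 hi with rfl | hi
    · exact hvμ
    · have := hv i (mem_of_mem_erase hi); omega
  · intro i hi
    rcases mem_insert.1 hi with rfl | hi
    · exact hvμ
    · have := hv i hi; omega

/-- The corner for the derived tree. -/
def flatS (μ : ℕ) (s : ℕ → ℕ) (i : ℕ) : ℕ :=
  if i = 0 then (range (μ + 1)).sup (fun k => s k - μ) else s (μ + i) - μ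

lemma le_lift_flatS (μ : ℕ) (s : ℕ → ℕ) (h0 : s 0 ≤ μ) (i : ℕ) : s i ≤ lift μ (flatS μ s) i := by
  unfold lift
  split_ifs with h1 h2
  · subst h1; exact h0
  · have : s i - μ ≤ flatS μ s 0 := by
      unfold flatS
      rw [if_pos rfl]
      exact Finset.le_sup (f := fun k => s k - μ) (mem_range.2 (by omega))
    omega
  · have : flatS μ s (i - μ) = s i - μ := by
      unfold flatS
      rw [if_neg (by omega)]
      congr 2; omega
    omega

/-- Transfer of an allowed constraint to the derived tree. -/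
lemma con_flat {T : ℕ → (ℕ → ℕ) → Prop} (hT : Mono T) {θ : Finset ℕ → ZMod 2} {μ : ℕ}
    (hθ : Sol (flat T μ) θ) (τ : Finset ℕ) (v j : ℕ) (s : ℕ → ℕ) (h0 : 0 ∈ τ)
    (hv : ∀ i ∈ τ, i < v) (hj : j ∈ τ) (hA : Adm τ v j s) (hTv : T v s) (hvμ : μ < v)
    (hs0 : s 0 ≤ μ) (hlow : j ≤ μ → ∀ i ≤ μ, s i ≤ μ) :
    Con θ (τ.image (· - μ)) (v - μ) (j - μ) := by
  refine hθ _ _ _ (flatS μ s) (mem_image.2 ⟨0, h0, by simp⟩) ?_ (mem_image.2 ⟨j, hj, rfl⟩) ⟨?_, ?_⟩ ?_
  · intro i hi
    obtain ⟨k, hk, rfl⟩ := mem_image.1 hi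
    have := hv k hk
    omega
  · intro i hi
    unfold flatS
    split_ifs with h1
    · subst h1
      have hjμ : j ≤ μ := by
        by_contra hh
        exact hi (mem_erase.2 ⟨by omega, mem_image.2 ⟨0, h0, by simp⟩⟩)
      apply Nat.eq_zero_of_le_zero
      refine Finset.sup_le fun k hk => ?_
      have := hlow hjμ k (by have := mem_range.1 hk; omega)
      omega
    · have : μ + i ∉ τ.erase j := by
        intro hh
        apply hi
        have h2 := mem_erase.1 hh
        exact mem_erase.2 ⟨by omega, mem_image.2 ⟨μ + i, h2.2, by omega⟩⟩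
      rw [hA.1 _ this]; omega
  · intro i hi k hk hik
    have hk' : ∃ k' ∈ insert v τ, k' - μ = k := by
      rcases mem_insert.1 hk with rfl | hk
      · exact ⟨v, mem_insert_self _ _, rfl⟩
      · obtain ⟨k', hk1, hk2⟩ := mem_image.1 hk
        exact ⟨k', mem_insert_of_mem hk1, hk2⟩
    obtain ⟨k', hk1, hk2⟩ := hk'
    have hall : ∀ i', i' < k' → s i' ≤ k' := by
      intro i' hi'
      by_cases h : i' ∈ τ
      · exact hA.2 i' h k' hk1 hi'
      · rw [hA.1 i' (fun hh => h (mem_of_mem_erase hh))]; omega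
    unfold flatS
    split_ifs with h1
    · refine Finset.sup_le fun m hm => ?_
      have := hall m (by have := mem_range.1 hm; omega)
      omega
    · have := hall (μ + i) (by omega)
      omega
  · unfold flat
    exact hT v (μ + (v - μ)) s _ (by omega) (by omega) (fun i _ => le_lift_flatS μ s hs0 i) hTv

lemma image_insert_sub (τ : Finset ℕ) (v μ : ℕ) :
    (insert v τ).image (· - μ) = insert (v - μ) (τ.image (· - μ)) := by
  simp

theorem improve {T : ℕ → (ℕ → ℕ) → Prop} (hT : Mono T) {χ θ : Finset ℕ → ZMod 2}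
    {ν₀ ν μ ν' : ℕ} (hχ : Good χ ν₀) (hθg : Good θ ν') (hθ : Sol (flat T μ) θ)
    (h01 : ν₀ ≤ ν) (h12 : ν ≤ μ) (hν : ¬ T (ν + 1) (fun _ => ν₀)) (hμ : ¬ T (μ + 1) (fun _ => ν))
    (τ : Finset ℕ) (v j : ℕ) (s : ℕ → ℕ) (h0 : 0 ∈ τ)
    (hv : ∀ i ∈ τ, i < v) (hj : j ∈ τ) (hA : Adm τ v j s) (hTv : T v s)
    (hcon : ∀ i ∈ τ, j < i → i ≤ ν → Con χ (τ.filter (· < i)) i j) :
    Con (newChi χ θ μ) τ v j := by
  by_cases hvμ : v ≤ μ
  · exact con_low χ θ μ τ v j h0 hv hj hvμ
  replace hvμ : μ < v := by omega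
  have hχν : ∀ σ, χ σ ≠ 0 → 0 ∈ σ ∧ ∀ i ∈ σ, i ≤ ν := fun σ h =>
    ⟨(hχ.2 σ h).1, fun i hi => ((hχ.2 σ h).2 i hi).trans h01⟩
  have hall : ∀ k ∈ insert v τ, ∀ i < k, s i ≤ k := by
    intro k hk i hi
    by_cases h : i ∈ τ
    · exact hA.2 i h k hk hi
    · rw [hA.1 i (fun hh => h (mem_of_mem_erase hh))]; omega
  have hsj : s j = 0 := hA.1 j (by simp)
  unfold Con
  rw [newChi_high χ θ μ _ v (mem_insert_self _ _) hvμ,
    newChi_high χ θ μ _ v (mem_insert_self _ _) hvμ]
  by_cases hjμ : μ < j
  · -- the face lies inside the upper part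
    rw [newChi_high χ θ μ τ j hj hjμ]
    have g1 : gsum χ (insert v (τ.erase j)) = gsum χ (insert v τ) :=
      gsum_congr hχν fun i hi => by
        simp only [mem_insert, mem_erase]
        constructor
        · rintro (h | h); exacts [Or.inl h, Or.inr h.2]
        · rintro (h | h); exacts [Or.inl h, Or.inr ⟨by omega, h⟩]
    have g2 : gsum χ τ = gsum χ (insert v τ) :=
      gsum_congr hχν fun i hi => by
        simp only [mem_insert]
        constructor
        · intro h; exact Or.inr h
        · rintro (h | h); exacts [by omega, h]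
    by_cases hA' : ∃ k ∈ τ, 1 ≤ k ∧ k ≤ μ
    · obtain ⟨k, hk, hk1, hk2⟩ := hA'
      rw [if_pos ⟨k, mem_insert_of_mem hk, hk1, hk2⟩,
        if_pos ⟨k, mem_insert_of_mem (mem_erase.2 ⟨by omega, hk⟩), hk1, hk2⟩,
        if_pos (show ∃ k ∈ τ, 1 ≤ k ∧ k ≤ μ from ⟨k, hk, hk1, hk2⟩), g1, g2]
      have hc := con_flat hT hθ τ v j s h0 hv hj hA hTv hvμ
        ((hall k (mem_insert_of_mem hk) 0 (by omega)).trans hk2) (fun h => by omega)
      unfold Con at hc
      have e1 : (insert v (τ.erase j)).image (· - μ) =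
          insert (v - μ) ((τ.image (· - μ)).erase (j - μ)) := by
        rw [image_insert_sub]
        congr 1
        ext i; simp only [mem_image, mem_erase]
        constructor
        · rintro ⟨a, ⟨a1, a2⟩, rfl⟩; exact ⟨by omega, a, a2, rfl⟩
        · rintro ⟨a1, a, a2, rfl⟩; exact ⟨a, ⟨by omega, a2⟩, rfl⟩
      have e2 : (∀ i ∈ τ.image (· - μ), i ≤ j - μ) ↔ ∀ i ∈ τ, i ≤ j := by
        constructor
        · intro h i hi
          have := h (i - μ) (mem_image.2 ⟨i, hi, rfl⟩); omega
        · intro h i hi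
          obtain ⟨a, a1, rfl⟩ := mem_image.1 hi
          have := h a a1; omega
      rw [image_insert_sub, e1, hc]
      by_cases hm : ∀ i ∈ τ, i ≤ j
      · rw [if_pos hm, if_pos (e2.2 hm)]; ring
      · rw [if_neg hm, if_neg (fun h => hm (e2.1 h))]; ring
    · rw [if_neg, if_neg, if_neg hA']
      · simp
      · rintro ⟨k, hk, hk1, hk2⟩
        rcases mem_insert.1 hk with rfl | hk
        · omega
        · exact hA' ⟨k, mem_of_mem_erase hk, hk1, hk2⟩
      · rintro ⟨k, hk, hk1, hk2⟩
        rcases mem_insert.1 hk with rfl | hk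
        · omega
        · exact hA' ⟨k, hk, hk1, hk2⟩
  replace hjμ : j ≤ μ := by omega
  have eimg : (insert v (τ.erase j)).image (· - μ) = (insert v τ).image (· - μ) ∨ j = 0 := by
    by_cases hj0 : j = 0
    · exact Or.inr hj0
    · left
      rw [image_insert_sub, image_insert_sub]
      congr 1
      ext i; simp only [mem_image, mem_erase]
      constructor
      · rintro ⟨a, ⟨_, a2⟩, rfl⟩; exact ⟨a, a2, rfl⟩
      · rintro ⟨a, a2, rfl⟩
        by_cases haj : a = j
        · exact ⟨0, ⟨by omega, h0⟩, by omega⟩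
        · exact ⟨a, ⟨haj, a2⟩, rfl⟩
  have gzero : j = 0 → gsum χ (insert v (τ.erase j)) = 0 := by
    intro hj0
    by_contra hh
    have := gsum_ne_zero hχν hh
    rcases mem_insert.1 this with h | h
    · omega
    · exact (mem_erase.1 h).1 hj0.symm
  by_cases hnext : ∃ k ∈ τ, j < k ∧ k ≤ μ
  · -- the face is an inner face of the lower part
    obtain ⟨k, hk, hk1, hk2⟩ := hnext
    have hm : ¬ ∀ i ∈ τ, i ≤ j := fun h => by have := h k hk; omega
    rw [if_neg hm, add_zero, if_pos ⟨k, mem_insert_of_mem hk, by omega, hk2⟩,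
      if_pos ⟨k, mem_insert_of_mem (mem_erase.2 ⟨by omega, hk⟩), by omega, hk2⟩]
    have hg : gsum χ (insert v τ) = gsum χ (insert v (τ.erase j)) := by
      -- pass to the part below ν
      set ρ := τ.filter (· ≤ ν) with hρ
      have g1 : gsum χ (insert v τ) = gsum χ ρ :=
        gsum_congr hχν fun i hi => by
          simp only [hρ, mem_insert, mem_filter]
          constructor
          · rintro (h | h); exacts [by omega, ⟨h, hi⟩]
          · intro h; exact Or.inr h.1
      have g2 : gsum χ (insert v (τ.erase j)) = gsum χ (ρ.erase j) :=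
        gsum_congr hχν fun i hi => by
          simp only [hρ, mem_insert, mem_filter, mem_erase]
          constructor
          · rintro (h | h); exacts [by omega, ⟨h.1, h.2, hi⟩]
          · intro h; exact Or.inr ⟨h.1, h.2.1⟩
      rw [g1, g2]
      by_cases hjν : j ≤ ν
      · have hjρ : j ∈ ρ := mem_filter.2 ⟨hj, hjν⟩
        by_cases hex : ∃ i ∈ ρ, j < i
        · have hne : (ρ.filter (j < ·)).Nonempty := by
            obtain ⟨i, hi1, hi2⟩ := hex
            exact ⟨i, mem_filter.2 ⟨hi1, hi2⟩⟩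
          have hk₀ := mem_filter.1 (Finset.min'_mem _ hne)
          refine gsum_erase χ ρ j hjρ _ hk₀.1 hk₀.2
            (fun i hi hji => Finset.min'_le _ _ (mem_filter.2 ⟨hi, hji⟩)) ?_
          intro i hi hji
          have hi' := mem_filter.1 hi
          have e : ρ.filter (· < i) = τ.filter (· < i) := by
            ext m; simp only [hρ, mem_filter]
            constructor
            · rintro ⟨a, b⟩; exact ⟨a.1, b⟩
            · rintro ⟨a, b⟩; exact ⟨⟨a, by omega⟩, b⟩
          rw [e]
          exact hcon i hi'.1 hji hi'.2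
        · push Not at hex
          have hz : χ (ρ.filter (· ≤ j)) = 0 := by
            by_contra hh
            have hj0 : j ≤ ν₀ := (hχ.2 _ hh).2 j (mem_filter.2 ⟨hjρ, le_rfl⟩)
            apply hν
            refine hT v (ν + 1) s _ (by omega) (by omega) (fun i hi => ?_) hTv
            rcases lt_trichotomy i j with h | h | h
            · exact (hall j (mem_insert_of_mem hj) i h).trans hj0
            · rw [h, hsj]; omega
            · have : i ∉ τ.erase j := fun hh =>
                absurd (hex i (mem_filter.2 ⟨mem_of_mem_erase hh, by omega⟩)) (by omega)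
              rw [hA.1 i this]; omega
          unfold gsum
          rw [← Finset.add_sum_erase ρ _ hjρ, hz, zero_add]
          refine Finset.sum_congr rfl fun i hi => ?_
          have hi' := mem_erase.1 hi
          have := hex i hi'.2
          congr 1
          ext m; simp only [mem_filter, mem_erase]
          constructor
          · rintro ⟨a, b⟩; exact ⟨⟨by omega, a⟩, b⟩
          · rintro ⟨a, b⟩; exact ⟨a.2, b⟩
      · have : j ∉ ρ := fun h => hjν (mem_filter.1 h).2
        rw [erase_eq_of_notMem this]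
    rcases eimg with h | h
    · rw [h, hg]
    · rw [hg, gzero h]; simp
  -- the face is the root face
  push Not at hnext
  have hlow : ∀ i ≤ μ, s i ≤ j := by
    intro i hi
    rcases lt_trichotomy i j with h | h | h
    · exact hall j (mem_insert_of_mem hj) i h
    · rw [h, hsj]; omega
    · have : i ∉ τ.erase j := fun hh => by have := hnext i (mem_of_mem_erase hh) h; omega
      rw [hA.1 i this]; omega
  have hjν : (∀ i ∈ τ, i ≤ j) → ν < j := by
    intro hm
    by_contra hh
    apply hμ
    refine hT v (μ + 1) s _ (by omega) (by omega) (fun i hi => ?_) hTv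
    have := hlow i (by omega)
    show s i ≤ ν
    omega
  by_cases hj0 : j = 0
  · have n1 : ¬ ∃ k ∈ insert v τ, 1 ≤ k ∧ k ≤ μ := by
      rintro ⟨k, hk, hk1, hk2⟩
      rcases mem_insert.1 hk with rfl | hk
      · omega
      · have := hnext k hk (by omega); omega
    have hm : ¬ ∀ i ∈ τ, i ≤ j := fun h => by have := hjν h; omega
    rw [if_neg n1, if_neg hm, gzero hj0]
    simp
  have e := eimg.resolve_right hj0
  rw [e, if_pos ⟨j, mem_insert_of_mem hj, by omega, hjμ⟩]
  have hc := con_flat hT hθ τ v j s h0 hv hj hA hTv hvμ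
    ((hlow 0 (by omega)).trans hjμ) (fun _ i hi => (hlow i hi).trans hjμ)
  unfold Con at hc
  have hj' : j - μ = 0 := by omega
  rw [hj'] at hc
  have hz : θ (insert (v - μ) ((τ.image (· - μ)).erase 0)) = 0 := by
    by_contra hh
    have := (hθg.2 _ hh).1
    rcases mem_insert.1 this with h | h
    · omega
    · exact (mem_erase.1 h).1 rfl
  rw [hz, zero_add, ← image_insert_sub] at hc
  by_cases hm : ∀ i ∈ τ, i ≤ j
  · have hνj := hjν hm
    have e1 : τ.image (· - μ) = {0} := by
      ext i; simp only [mem_image, mem_singleton]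
      constructor
      · rintro ⟨a, a1, rfl⟩; have := hm a a1; omega
      · rintro rfl; exact ⟨0, h0, by simp⟩
    rw [e1, if_pos (by simp), hθg.1] at hc
    rw [hc, if_pos hm, newChi_low χ θ μ τ (fun i hi => (hm i hi).trans hjμ), mul_one]
    have g1 : gsum χ (insert v (τ.erase j)) = gsum χ (insert v τ) :=
      gsum_congr hχν fun i hi => by
        simp only [mem_insert, mem_erase]
        constructor
        · rintro (h | h); exacts [Or.inl h, Or.inr h.2]
        · rintro (h | h); exacts [Or.inl h, Or.inr ⟨by omega, h⟩]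
    by_cases hex : ∃ k ∈ τ, k ≠ 0 ∧ k ≠ j
    · obtain ⟨k, hk, hk0, hkj⟩ := hex
      have hcard : ¬ τ.card ≤ 2 := by
        have : ({0, k, j} : Finset ℕ) ⊆ τ := by
          intro x hx
          simp only [mem_insert, mem_singleton] at hx
          rcases hx with rfl | rfl | rfl <;> assumption
        have h3 := card_le_card this
        rw [card_eq_three.2 ⟨0, k, j, hk0.symm, fun h => hj0 h.symm, hkj, rfl⟩] at h3
        omega
      have := hm k hk
      rw [if_pos ⟨k, mem_insert_of_mem (mem_erase.2 ⟨hkj, hk⟩), by omega, by omega⟩, g1,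
        if_neg (fun h => hcard h.2), mul_one, add_zero]
    · push Not at hex
      have eτ : τ = {0, j} := by
        ext i; simp only [mem_insert, mem_singleton]
        constructor
        · intro hi
          by_cases h : i = 0
          · exact Or.inl h
          · exact Or.inr (hex i hi h)
        · rintro (rfl | rfl) <;> assumption
      have n1 : ¬ ∃ k ∈ insert v (τ.erase j), 1 ≤ k ∧ k ≤ μ := by
        rintro ⟨k, hk, hk1, hk2⟩
        rcases mem_insert.1 hk with rfl | hk
        · omega
        · have h' := mem_erase.1 hk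
          exact h'.1 (hex k h'.2 (by omega))
      have hcard : τ.card ≤ 2 := by rw [eτ]; exact card_le_two
      rw [if_neg n1, if_pos ⟨h0, hcard⟩, zero_add]
      have g2 : gsum χ (insert v τ) = gsum χ {0} :=
        gsum_congr hχν fun i hi => by
          rw [eτ]
          simp only [mem_insert, mem_singleton]
          constructor
          · rintro (h | h | h) <;> omega
          · intro h; exact Or.inr (Or.inl h)
      rw [g2]
      simp [gsum, Finset.filter_singleton, hχ.1]
  · have n2 : ¬ ∀ i ∈ τ.image (· - μ), i ≤ 0 := by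
      intro h
      apply hm
      intro i hi
      by_contra hh
      have h1 := hnext i hi (by omega)
      have h2 := h (i - μ) (mem_image.2 ⟨i, hi, rfl⟩)
      omega
    rw [if_neg n2] at hc
    rw [hc, if_neg hm]
    simp

end Pool.Agent.Lib.MP_17e614_gt
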