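import Pool.Agent.Lib.MP_17e614_gt.Improve

/-! The double induction. -/

namespace Pool.Agent.Lib.MP_17e614_gt

open Finset

/-- The canonical corner. -/
noncomputable def canon (τ : Finset ℕ) (v j : ℕ) (i : ℕ) : ℕ :=
  if i ∈ τ.erase j then sInf {k | k ∈ insert v τ ∧ i < k} else 0

lemma canon_adm (τ : Finset ℕ) (v j : ℕ) : Adm τ v j (canon τ v j) := by
  constructor
  · intro i hi; unfold canon; rw [if_neg hi]
  · intro i _ k hk hik
    unfold canon
    split_ifs
    · exact Nat.sInf_le ⟨hk, hik⟩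
    · omega

lemma le_canon {τ : Finset ℕ} {v j : ℕ} {s : ℕ → ℕ} (hA : Adm τ v j s) (w : ℕ) (hw : w ∈ τ)
    (i : ℕ) (hi : i < w) : s i ≤ canon (τ.filter (· < w)) w j i := by
  unfold canon
  split_ifs with h
  · have h1 := mem_erase.1 h
    have h2 := mem_filter.1 h1.2
    have hne : {k | k ∈ insert w (τ.filter (· < w)) ∧ i < k}.Nonempty :=
      ⟨w, mem_insert_self _ _, hi⟩
    have hm := Nat.sInf_mem hne
    refine hA.2 i h2.1 _ ?_ hm.2
    rcases mem_insert.1 hm.1 with h3 | h3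
    · rw [h3]; exact mem_insert_of_mem hw
    · exact mem_insert_of_mem (mem_filter.1 h3).1
  · have : i ∉ τ.erase j := fun hh =>
      h (mem_erase.2 ⟨(mem_erase.1 hh).1, mem_filter.2 ⟨(mem_erase.1 hh).2, hi⟩⟩)
    rw [hA.1 i this]

lemma good_delta : Good (fun σ => if σ = {0} then 1 else 0) 0 := by
  constructor
  · simp
  · intro σ h
    have : σ = {0} := by
      by_contra hh
      exact h (if_neg hh)
    subst this
    simp

theorem solve_aux (α : Ordinal.{0}) : ∀ (T : ℕ → (ℕ → ℕ) → Prop) (r : ℕ → (ℕ → ℕ) → Ordinal.{0}),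
    Mono T → Ranked T r → (∀ n s, 1 ≤ n → T n s → r n s < α) →
    ∃ χ ν, Good χ ν ∧ Sol T χ := by
  induction α using WellFoundedLT.induction with
  | ind α ih =>
  intro T r hT hr hα
  -- solutions for the derived trees
  have hflat : ∀ μ, 1 ≤ μ → ∃ θ ν', Good θ ν' ∧ Sol (flat T μ) θ := by
    intro μ hμ
    by_cases h1 : T 1 (fun _ => μ)
    · refine ih (r 1 (fun _ => μ)) (hα 1 _ le_rfl h1) _ _ (flat_mono hT μ) (flat_ranked hr μ) ?_
      intro n s hn hs
      refine hr 1 (μ + n) _ _ le_rfl (by omega) (fun i hi => ?_) hs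
      have : i = 0 := by omega
      subst this
      simp [lift]
    · refine ⟨_, 0, good_delta, ?_⟩
      intro τ v j s h0 hv _ _ hs
      exfalso
      apply h1
      refine hT (μ + v) 1 _ _ le_rfl (by omega) (fun i hi => ?_) hs
      have : i = 0 := by omega
      subst this
      simp [lift]
  -- inner induction
  have inner : ∀ γ : Ordinal.{0}, (∃ χ ν, Good χ ν ∧ ∀ τ v j s, 0 ∈ τ → (∀ i ∈ τ, i < v) → j ∈ τ →
      Adm τ v j s → T v s → ¬ Con χ τ v j → r v s < γ) → ∃ χ ν, Good χ ν ∧ Sol T χ := by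
    intro γ
    induction γ using WellFoundedLT.induction with
    | ind γ ihγ =>
    rintro ⟨χ, ν₀, hχ, hviol⟩
    by_cases hγ : γ = 0
    · refine ⟨χ, ν₀, hχ, fun τ v j s h0 hv hj hA hs => ?_⟩
      by_contra hc
      have := hviol τ v j s h0 hv hj hA hs hc
      rw [hγ] at this
      exact absurd this (not_lt_bot (a := r v s))
    obtain ⟨ν, hν1, hν2⟩ := no_branch hT hr (fun _ => ν₀) ν₀
    obtain ⟨μ, hμ1, hμ2⟩ := no_branch hT hr (fun _ => ν) (ν + 1)
    obtain ⟨θ, ν', hθg, hθ⟩ := hflat μ (by omega)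
    classical
    let V : Finset (Finset ℕ × ℕ × ℕ) :=
      ((range (ν + 1)).powerset ×ˢ (range (ν + 1)) ×ˢ (range (ν + 1))).filter
        (fun p => 0 ∈ p.1 ∧ (∀ i ∈ p.1, i < p.2.1) ∧ p.2.2 ∈ p.1 ∧
          T p.2.1 (canon p.1 p.2.1 p.2.2) ∧ ¬ Con χ p.1 p.2.1 p.2.2)
    let γ' : Ordinal.{0} := V.sup (fun p => r p.2.1 (canon p.1 p.2.1 p.2.2))
    have hγ' : γ' < γ := by
      refine (Finset.sup_lt_iff (bot_lt_iff_ne_bot.2 hγ)).2 fun p hp => ?_
      obtain ⟨-, a, b, c, d, e⟩ := mem_filter.1 hp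
      exact hviol _ _ _ _ a b c (canon_adm _ _ _) d e
    refine ihγ γ' hγ' ⟨newChi χ θ μ, μ + ν', newChi_good hχ hθg μ, ?_⟩
    intro τ v j s h0 hv hj hA hs hc
    by_contra hlt
    apply hc
    refine improve hT hχ hθg hθ hν1 (by omega) hν2 hμ2 τ v j s h0 hv hj hA hs ?_
    intro i hi hji hiν
    by_contra hc'
    apply hlt
    have hle := le_canon hA i hi
    have hTi : T i (canon (τ.filter (· < i)) i j) :=
      hT v i s _ (by omega) (hv i hi).le hle hs
    have hmem : (τ.filter (· < i), i, j) ∈ V := by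
      refine mem_filter.2 ⟨?_, ?_, ?_, ?_, hTi, hc'⟩
      · simp only [mem_product, mem_powerset, mem_range]
        refine ⟨fun k hk => ?_, by omega, by omega⟩
        have := (mem_filter.1 hk).2
        exact mem_range.2 (by omega)
      · exact mem_filter.2 ⟨h0, by omega⟩
      · intro k hk; exact (mem_filter.1 hk).2
      · exact mem_filter.2 ⟨hj, hji⟩
    calc r v s < r i (canon (τ.filter (· < i)) i j) := hr i v _ _ (by omega) (hv i hi) hle hs
      _ ≤ γ' := Finset.le_sup (f := fun p : Finset ℕ × ℕ × ℕ => r p.2.1 (canon p.1 p.2.1 p.2.2)) hmem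
  refine inner α ⟨_, 0, good_delta, fun τ v j s h0 hv _ _ hs _ => hα v s ?_ hs⟩
  have := hv 0 h0
  omega

/-- Main combinatorial theorem. -/
theorem solve (T : ℕ → (ℕ → ℕ) → Prop) (hT : Mono T) (hwf : ∀ N, ∃ n, 1 ≤ n ∧ ¬ T n N) :
    ∃ χ ν, Good χ ν ∧ Sol T χ := by
  let R : ℕ × (ℕ → ℕ) → ℕ × (ℕ → ℕ) → Prop := fun x y =>
    1 ≤ y.1 ∧ y.1 < x.1 ∧ (∀ i < y.1, x.2 i ≤ y.2 i) ∧ T x.1 x.2
  have hR : WellFounded R := by
    rw [wellFounded_iff_isEmpty_descending_chain]
    refine ⟨fun ⟨f, hf⟩ => ?_⟩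
    have hmono : StrictMono (fun k => (f k).1) := strictMono_nat_of_lt_succ fun k => (hf k).2.1
    have hge : ∀ k, k ≤ (f k).1 := fun k => hmono.le_apply
    -- the values at a coordinate are eventually non-increasing
    have hdec : ∀ k m i, i < (f k).1 → (f (k + m)).2 i ≤ (f k).2 i := by
      intro k m i hi
      induction m with
      | zero => exact le_rfl
      | succ m ih =>
        have h1 : (f k).1 ≤ (f (k + m)).1 := hmono.monotone (by omega)
        exact ((hf (k + m)).2.2.1 i (by omega)).trans ih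
    let N : ℕ → ℕ := fun i => (f (i + 1)).2 i
    obtain ⟨n, hn1, hn2⟩ := hwf N
    apply hn2
    refine hT (f (n + 1)).1 n (f (n + 1)).2 N hn1 (by have := hge (n + 1); omega) ?_ (hf n).2.2.2
    intro i hi
    have := hdec (i + 1) (n - i) i (by have := hge (i + 1); omega)
    rwa [show i + 1 + (n - i) = n + 1 by omega] at this
  have : IsWellFounded _ R := ⟨hR⟩
  let r : ℕ → (ℕ → ℕ) → Ordinal.{0} := fun n s => IsWellFounded.rank R (n, s)
  have hr : Ranked T r := fun n n' s s' h1 h2 h3 h4 =>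
    IsWellFounded.rank_lt_of_rel (r := R) (a := (n', s')) (b := (n, s)) ⟨h1, h2, h3, h4⟩
  refine solve_aux (⨆ p : ℕ × (ℕ → ℕ), Order.succ (r p.1 p.2)) T r hT hr fun n s _ _ => ?_
  exact lt_of_lt_of_le (Order.lt_succ _)
    (Ordinal.le_iSup (fun p : ℕ × (ℕ → ℕ) => Order.succ (r p.1 p.2)) (n, s))

end Pool.Agent.Lib.MP_17e614_gt
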