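import Pool.Agent.Lib.MP_17e614_gt.Grid
import Pool.Agent.Lib.MP_17e614_gt.Solve

/-! The slice theorem: no continuous family of escape paths over the full parameter space. -/

namespace Pool.Agent.Lib.MP_17e614_gt

open Set Filter Topology

lemma sup_entourage {ι : Type*} {V : Set ((ι → ℝ) × (ι → ℝ))} (hV : V ∈ uniformity (ι → ℝ)) :
    ∃ δ > 0, ∀ x y : ι → ℝ, (∀ i, |y i - x i| ≤ δ) → (x, y) ∈ V := by
  let F : Filter ((ι → ℝ) × (ι → ℝ)) :=
    ⨅ δ : {δ : ℝ // 0 < δ}, 𝓟 {p | ∀ i, |p.2 i - p.1 i| ≤ δ.1}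
  have hF : F ≤ uniformity (ι → ℝ) := by
    rw [Pi.uniformity]
    refine le_iInf fun i => ?_
    rw [← Filter.map_le_iff_le_comap]
    refine (Metric.uniformity_basis_dist_le.ge_iff).2 fun δ hδ => ?_
    refine mem_map.2 (mem_iInf_of_mem ⟨δ, hδ⟩ (mem_principal.2 fun p hp => ?_))
    have := hp i
    simp only [mem_preimage, mem_ofPred_eq, Real.dist_eq]
    rwa [abs_sub_comm]
  have hdir : Directed (· ≥ ·) fun δ : {δ : ℝ // 0 < δ} =>
      𝓟 {p : (ι → ℝ) × (ι → ℝ) | ∀ i, |p.2 i - p.1 i| ≤ δ.1} := by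
    intro a b
    refine ⟨⟨min a.1 b.1, lt_min a.2 b.2⟩, ?_, ?_⟩
    · exact principal_mono.2 fun p hp i => (hp i).trans (min_le_left _ _)
    · exact principal_mono.2 fun p hp i => (hp i).trans (min_le_right _ _)
  have : Nonempty {δ : ℝ // 0 < δ} := ⟨⟨1, one_pos⟩⟩
  obtain ⟨δ, hδ⟩ := (mem_iInf_of_directed hdir V).1 (hF hV)
  exact ⟨δ.1, δ.2, fun x y h => mem_principal.1 hδ h⟩

theorem slice (S : (Option ℕ → ℝ) → ℕ → ℝ) (hS : ∀ k, Continuous fun p => S p k)
    (Own : (Option ℕ → ℝ) → Prop)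
    (hnn : ∀ p k, 0 ≤ S p k) (hpos : ∀ p, ∃ k, 0 < S p k)
    (hown : ∀ p p' : Option ℕ → ℝ,
      (∀ θ ∈ Icc (0 : ℝ) 1, 0 < S (fun d => p d + θ * (p' d - p d)) 0) → Own p → Own p')
    (hadj : ∀ p, Own p → ∀ k l, k < l → 0 < S p k → 0 < S p l → |p (some k)| ≤ l)
    (htop : ∀ p, p none = 1 → Own p ∧ ∀ k, 0 < k → S p k = 0)
    (hbot : ∀ p, p none = 0 → ¬ Own p) : False := by
  classical
  let V : ℕ → Set (Option ℕ → ℝ) := fun k => {p | 0 < S p k ∧ ∀ i < k, S p i < 1 / (1 + k)}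
  have hVo : ∀ k, IsOpen (V k) := by
    intro k
    have e : V k = {p | 0 < S p k} ∩ ⋂ i ∈ Finset.range k, {p | S p i < 1 / (1 + k)} := by
      ext p; simp [V]
    rw [e]
    exact (isOpen_lt continuous_const (hS k)).inter
      (isOpen_biInter_finset fun i _ => isOpen_lt (hS i) continuous_const)
  have hVc : ∀ p, ∃ k, p ∈ V k := by
    intro p
    refine ⟨Nat.find (hpos p), Nat.find_spec (hpos p), fun i hi => ?_⟩
    have h1 := Nat.find_min (hpos p) hi
    have : S p i = 0 := le_antisymm (not_lt.1 h1) (hnn p i)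
    rw [this]; positivity
  let T : ℕ → (ℕ → ℕ) → Prop := fun n s => ∃ p : Option ℕ → ℝ, (0 ≤ p none ∧ p none ≤ 1) ∧
    (∀ i < n, 0 ≤ p (some i) ∧ p (some i) ≤ s i) ∧ ∀ i < n, S p i < 1 / (1 + n)
  have hT : Mono T := by
    rintro n m s s' - hmn hs ⟨p, h1, h2, h3⟩
    refine ⟨p, h1, fun i hi => ⟨(h2 i (by omega)).1, (h2 i (by omega)).2.trans ?_⟩, fun i hi => ?_⟩
    · exact_mod_cast hs i hi
    · refine (h3 i (by omega)).trans_le ?_
      have : (m : ℝ) ≤ n := by exact_mod_cast hmn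
      gcongr
  have hwf : ∀ N, ∃ n, 1 ≤ n ∧ ¬ T n N := by
    intro N
    by_contra h
    push Not at h
    choose p hp using fun n => h (n + 1) (by omega)
    let U : Ultrafilter ℕ := Ultrafilter.of atTop
    have hU : (U : Filter ℕ) ≤ atTop := Ultrafilter.of_le _
    have hlim : ∀ d, ∃ x, Tendsto (fun n => p n d) U (𝓝 x) := by
      intro d
      obtain ⟨B, hB⟩ : ∃ B : ℝ, ∀ᶠ n in atTop, p n d ∈ Icc 0 B := by
        cases d with
        | none => exact ⟨1, Eventually.of_forall fun n => (hp n).1⟩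
        | some i =>
          refine ⟨N i, (eventually_ge_atTop i).mono fun n hn => (hp n).2.1 i (by omega)⟩
      obtain ⟨x, -, hx⟩ := (isCompact_Icc (a := (0 : ℝ)) (b := B)).ultrafilter_le_nhds
        (U.map fun n => p n d) (le_principal_iff.2 (hU hB))
      exact ⟨x, hx⟩
    choose q hq using hlim
    have hq' : Tendsto p U (𝓝 q) := tendsto_pi_nhds.2 hq
    obtain ⟨k, hk⟩ := hpos q
    have t1 : Tendsto (fun n => S (p n) k) U (𝓝 (S q k)) := ((hS k).tendsto q).comp hq'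
    have t2 : Tendsto (fun n : ℕ => 1 / ((n : ℝ) + 1)) U (𝓝 0) :=
      tendsto_one_div_add_atTop_nhds_zero_nat.mono_left hU
    have : S q k ≤ 0 := by
      refine le_of_tendsto_of_tendsto t1 t2 (hU ((eventually_ge_atTop k).mono fun n hn => ?_))
      refine ((hp n).2.2 k (by omega)).le.trans ?_
      push_cast
      exact one_div_le_one_div_of_le (by positivity) (by linarith)
    linarith
  obtain ⟨χ, ν, hχ, hsol⟩ := solve T hT hwf
  let w : Option ℕ → ℝ := fun d => d.elim 1 (fun _ => (ν : ℝ) + 1)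
  have hw0 : ∀ d, 0 < w d := by
    intro d; cases d <;> simp only [w, Option.elim] <;> positivity
  have hw1 : ∀ d, w d ≤ ν + 1 := by
    intro d; cases d <;> simp [w]
  let K : Set (Option ℕ → ℝ) := Set.pi univ fun d => Icc 0 (w d)
  have hK : IsCompact K := isCompact_univ_pi fun d => isCompact_Icc
  obtain ⟨Λ, hΛ⟩ := hK.elim_finite_subcover V hVo (fun p _ => mem_iUnion.2 (hVc p))
  obtain ⟨E, hE, hEV⟩ := lebesgue_number_lemma (U := fun k : Λ => V k) hK (fun k => hVo k)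
    (fun p hp => by
      obtain ⟨k, hk1, hk2⟩ := mem_iUnion₂.1 (hΛ hp)
      exact mem_iUnion.2 ⟨⟨k, hk1⟩, hk2⟩)
  obtain ⟨δ, hδ, hδE⟩ := sup_entourage hE
  obtain ⟨N, hN⟩ := exists_nat_gt (((ν : ℝ) + 1) / δ)
  have hN0 : (0 : ℝ) < N := lt_trans (by positivity) hN
  have hNδ : ((ν : ℝ) + 1) / N ≤ δ := by
    rw [div_le_iff₀ hN0]
    rw [div_lt_iff₀ hδ] at hN
    linarith
  let y : (Option ℕ → ℕ) → Option ℕ → ℝ := fun a d => w d * ((min (a d) N : ℕ) : ℝ) / N
  have hyK : ∀ a, y a ∈ K := by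
    intro a d _
    have h1 : ((min (a d) N : ℕ) : ℝ) ≤ N := by exact_mod_cast min_le_right _ _
    have := hw0 d
    refine ⟨by positivity, ?_⟩
    show w d * ((min (a d) N : ℕ) : ℝ) / N ≤ w d
    rw [div_le_iff₀ hN0]
    gcongr
  have hnear : ∀ a b : Option ℕ → ℕ, (∀ d, a d ≤ b d ∧ b d ≤ a d + 1) →
      ∀ d, |y a d - y b d| ≤ δ := by
    intro a b h d
    have h1 : min (a d) N ≤ min (b d) N := by have := h d; omega
    have h2 : min (b d) N ≤ min (a d) N + 1 := by have := h d; omega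
    have h1' : ((min (a d) N : ℕ) : ℝ) ≤ ((min (b d) N : ℕ) : ℝ) := by exact_mod_cast h1
    have h2' : ((min (b d) N : ℕ) : ℝ) ≤ ((min (a d) N : ℕ) : ℝ) + 1 := by exact_mod_cast h2
    have e : y a d - y b d = w d * (((min (a d) N : ℕ) : ℝ) - ((min (b d) N : ℕ) : ℝ)) / N := by
      simp only [y]; ring
    rw [e, abs_div, abs_mul, abs_of_pos (hw0 d), abs_of_pos hN0]
    refine le_trans ?_ hNδ
    have h3 : |((min (a d) N : ℕ) : ℝ) - ((min (b d) N : ℕ) : ℝ)| ≤ 1 :=
      abs_le.2 ⟨by linarith, by linarith⟩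
    have := hw0 d
    have := hw1 d
    gcongr
    nlinarith [abs_nonneg (((min (a d) N : ℕ) : ℝ) - ((min (b d) N : ℕ) : ℝ))]
  choose κ' hκ' using fun a => hEV (y a) (hyK a)
  have hball : ∀ a p, (∀ d, |p d - y a d| ≤ δ) → p ∈ V (κ' a) := fun a p h =>
    hκ' a (hδE _ _ h)
  have hself : ∀ a, y a ∈ V (κ' a) := fun a => hball a _ fun d => by simp [hδ.le]
  let κ : (Option ℕ → ℕ) → ℕ := fun a => if (κ' a : ℕ) = 0 ∧ ¬ Own (y a) then 1 else κ' a
  refine grid hχ hsol N κ (insert 1 Λ) ?_ (fun a i => ⌈y a (some i)⌉₊) ?_ ?_ ?_ ?_ ?_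
  · intro a
    simp only [κ]
    split_ifs
    · exact Finset.mem_insert_self _ _
    · exact Finset.mem_insert_of_mem (κ' a).2
  · intro b hb
    have : ¬ Own (y b) := hbot _ (by simp [y, hb])
    simp only [κ]
    split_ifs with h
    · exact one_ne_zero
    · exact fun hh => h ⟨hh, this⟩
  · intro b hb
    obtain ⟨t1, t2⟩ := htop (y b) (by simp [y, hb, w, hN0.ne'])
    have : (κ' b : ℕ) = 0 := by
      by_contra hh
      have := (hself b).1
      rw [t2 _ (Nat.pos_of_ne_zero hh)] at this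
      exact lt_irrefl _ this
    simp only [κ]
    rw [if_neg (fun h => h.2 t1), this]
  · intro a i h
    simp [y, h]
  · intro a i h
    have : y a (some i) = ((ν + 1 : ℕ) : ℝ) := by
      simp [y, h, w, hN0.ne']
    rw [this, Nat.ceil_natCast]
    omega
  · intro D a σ hσ hl
    have hseg : ∀ b : Option ℕ → ℕ, (∀ d, a d ≤ b d ∧ b d ≤ a d + 1) → (κ' b : ℕ) = 0 →
        (Own (y a) ↔ Own (y b)) := by
      intro b hb h0
      constructor
      · refine hown _ _ fun θ hθ => ?_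
        have := (hball b (fun d => y a d + θ * (y b d - y a d)) fun d => ?_).1
        · rwa [h0] at this
        · have e : y a d + θ * (y b d - y a d) - y b d = (1 - θ) * (y a d - y b d) := by ring
          rw [e, abs_mul, abs_of_nonneg (by linarith [hθ.2])]
          have := hnear a b hb d
          nlinarith [abs_nonneg (y a d - y b d), hθ.1, hθ.2]
      · refine hown _ _ fun θ hθ => ?_
        have := (hball b (fun d => y b d + θ * (y a d - y b d)) fun d => ?_).1
        · rwa [h0] at this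
        · have e : y b d + θ * (y a d - y b d) - y b d = θ * (y a d - y b d) := by ring
          rw [e, abs_mul, abs_of_nonneg hθ.1]
          have := hnear a b hb d
          nlinarith [abs_nonneg (y a d - y b d), hθ.1, hθ.2]
    have hOwn : Own (y a) := by
      obtain ⟨b, b1, -, b3⟩ := hl 0 hσ
      simp only [κ] at b3
      split_ifs at b3 with h
      refine (hseg b b1 b3).2 ?_
      by_contra hh
      exact h ⟨b3, hh⟩
    have hV : ∀ k ∈ σ, y a ∈ V k := by
      intro k hk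
      obtain ⟨b, b1, -, b3⟩ := hl k hk
      simp only [κ] at b3
      split_ifs at b3 with h
      · exact absurd ((hseg b b1 h.1).1 hOwn) h.2
      · rw [← b3]
        exact hball b _ (hnear a b b1)
    refine ⟨fun k hk l hl' hkl => ?_, fun v hv _ => ?_⟩
    · exact Nat.ceil_le.2 ((le_abs_self _).trans (hadj _ hOwn k l hkl (hV k hk).1 (hV l hl').1))
    · exact ⟨y a, hyK a none (mem_univ _),
        fun i _ => ⟨(hyK a (some i) (mem_univ _)).1, Nat.le_ceil _⟩, (hV v hv).2⟩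

end Pool.Agent.Lib.MP_17e614_gt
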