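import Pool.Agent.Lib.MP_17e614_gt.Slice

/-! The space with teeth; instability of the origin. -/

namespace Pool.Agent.Lib.MP_17e614_gt

open Set Filter Topology

/-- The ambient space. -/
abbrev Amb : Type := ℕ ⊕ ℕ ⊕ ℕ → ℝ

/-- Height bound of vertex `k`. -/
noncomputable def rad (ρ : ℕ → ℝ) (k : ℕ) : ℝ := 1 / (1 + k + |ρ k|)

/-- A bit as a real number. -/
def bit (t : ℕ → Bool) (n : ℕ) : ℝ := if t n then 1 else 0

/-- The tooth with parameters `t`, `ρ`. -/
def InTooth (t : ℕ → Bool) (ρ : ℕ → ℝ) (x : Amb) : Prop :=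
  (∀ k, 0 ≤ x (.inl k) ∧ x (.inl k) ≤ rad ρ k) ∧
  (∀ k l, k < l → 0 < x (.inl k) → 0 < x (.inl l) → |ρ k| ≤ l) ∧
  (∀ k, x (.inr (.inl k)) = x (.inl 0) * rad ρ k) ∧
  (∀ n, x (.inr (.inr n)) = x (.inl 0) * bit t n)

/-- The base. -/
def InBase (x : Amb) : Prop :=
  x (.inl 0) = 0 ∧ (∀ k : ℕ, 0 ≤ x (.inl k) ∧ x (.inl k) ≤ 1 / (1 + k)) ∧
  (∀ k, x (.inr (.inl k)) = 0) ∧ (∀ n, x (.inr (.inr n)) = 0)

/-- The space attached to a parameter function `z`. -/
def Sp (z : (ℕ → Bool) → ℕ → ℝ) : Set Amb := {x | InBase x ∨ ∃ t, InTooth t (z t) x}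

lemma rad_pos (ρ : ℕ → ℝ) (k : ℕ) : 0 < rad ρ k := by unfold rad; positivity

lemma rad_le (ρ : ℕ → ℝ) (k : ℕ) : rad ρ k ≤ 1 / (1 + k) := by
  unfold rad
  exact one_div_le_one_div_of_le (by positivity) (by linarith [abs_nonneg (ρ k)])

lemma inv_le_one' (k : ℕ) : (1 : ℝ) / (1 + k) ≤ 1 := by
  rw [div_le_one (by positivity)]
  linarith [(Nat.cast_nonneg k : (0 : ℝ) ≤ k)]

lemma bit_cases (t : ℕ → Bool) (n : ℕ) : bit t n = 0 ∨ bit t n = 1 := by
  unfold bit; split_ifs <;> simp

lemma zero_mem (z : (ℕ → Bool) → ℕ → ℝ) : (0 : Amb) ∈ Sp z :=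
  Or.inl ⟨rfl, fun k => ⟨le_rfl, by simp only [Pi.zero_apply]; positivity⟩, fun _ => rfl,
    fun _ => rfl⟩

lemma fact_s {z : (ℕ → Bool) → ℕ → ℝ} {x : Amb} (hx : x ∈ Sp z) (k : ℕ) :
    0 ≤ x (.inl k) ∧ x (.inl k) ≤ 1 / (1 + k) := by
  rcases hx with h | ⟨t, h⟩
  · exact h.2.1 k
  · exact ⟨(h.1 k).1, (h.1 k).2.trans (rad_le _ _)⟩

lemma fact_q {z : (ℕ → Bool) → ℕ → ℝ} {x : Amb} (hx : x ∈ Sp z) (k : ℕ) :
    0 ≤ x (.inr (.inl k)) ∧ x (.inr (.inl k)) ≤ x (.inl 0) * (1 / (1 + k)) ∧
      (0 < x (.inl 0) → 0 < x (.inr (.inl k))) := by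
  rcases hx with h | ⟨t, h⟩
  · rw [h.2.2.1 k, h.1]; simp
  · rw [h.2.2.1 k]
    have h1 := (h.1 0).1
    have h2 := rad_pos (z t) k
    exact ⟨by positivity, mul_le_mul_of_nonneg_left (rad_le _ _) h1, fun h3 => by positivity⟩

lemma fact_b {z : (ℕ → Bool) → ℕ → ℝ} {x : Amb} (hx : x ∈ Sp z) (n : ℕ) :
    x (.inr (.inr n)) = 0 ∨ x (.inr (.inr n)) = x (.inl 0) := by
  rcases hx with h | ⟨t, h⟩
  · exact Or.inl (h.2.2.2 n)
  · rw [h.2.2.2 n]
    rcases bit_cases t n with h1 | h1 <;> simp [h1]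

lemma fact_r {z : (ℕ → Bool) → ℕ → ℝ} {x : Amb} (hx : x ∈ Sp z) (m : ℕ ⊕ ℕ) :
    0 ≤ x (.inr m) ∧ x (.inr m) ≤ x (.inl 0) := by
  have h0 := (fact_s hx 0).1
  rcases m with k | n
  · refine ⟨(fact_q hx k).1, (fact_q hx k).2.1.trans ?_⟩
    exact mul_le_of_le_one_right h0 (inv_le_one' k)
  · rcases fact_b hx n with h | h <;> rw [h] <;> simp [h0]

lemma fact_unit {z : (ℕ → Bool) → ℕ → ℝ} {x : Amb} (hx : x ∈ Sp z) (i : ℕ ⊕ ℕ ⊕ ℕ) :
    x i ∈ Icc (0 : ℝ) 1 := by
  rcases i with k | m
  · exact ⟨(fact_s hx k).1, (fact_s hx k).2.trans (inv_le_one' k)⟩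
  · exact ⟨(fact_r hx m).1, (fact_r hx m).2.trans ((fact_s hx 0).2.trans (inv_le_one' 0))⟩

lemma continuous_ratio {Y : Type*} [TopologicalSpace Y] {a b c : Y → ℝ} (ha : Continuous a)
    (hb : Continuous b) (hc : Continuous c) (h0 : ∀ y, 0 ≤ b y) (h1 : ∀ y, b y ≤ a y)
    (h2 : ∀ y, 0 ≤ c y) : Continuous fun y => max 0 (a y - c y) / a y * b y := by
  rw [continuous_iff_continuousAt]
  intro y
  by_cases h : a y = 0
  · have hb0 : b y = 0 := le_antisymm (h ▸ h1 y) (h0 y)
    have key : ∀ y', 0 ≤ max 0 (a y' - c y') / a y' * b y' ∧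
        max 0 (a y' - c y') / a y' * b y' ≤ b y' := by
      intro y'
      have ha' : 0 ≤ a y' := (h0 y').trans (h1 y')
      have := h0 y'
      refine ⟨by positivity, mul_le_of_le_one_left this ?_⟩
      exact div_le_one_of_le₀ (max_le ha' (by linarith [h2 y'])) ha'
    unfold ContinuousAt
    simp only [hb0, mul_zero]
    refine tendsto_of_tendsto_of_tendsto_of_le_of_le tendsto_const_nhds ?_ (fun y' => (key y').1)
      (fun y' => (key y').2)
    have := hb.tendsto y
    rwa [hb0] at this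
  · exact ((continuous_const.max (ha.sub hc)).continuousAt.div ha.continuousAt h).mul
      hb.continuousAt

/-- The pushing homotopy. -/
noncomputable def push (j : ℕ) (x : Amb) (θ : ℝ) : Amb
  | .inl k => max 0 (x (.inl k) - min 1 (2 * θ) * (1 / (1 + j))) +
      if k = j then max 0 (2 * θ - 1) *
        (x (.inr (.inl j)) + max 0 (1 / (1 + j) - x (.inl 0)) * (1 / (1 + j))) else 0
  | .inr m => max 0 (x (.inl 0) - min 1 (2 * θ) * (1 / (1 + j))) / x (.inl 0) * x (.inr m)

lemma push_zero {z : (ℕ → Bool) → ℕ → ℝ} {x : Amb} (hx : x ∈ Sp z) (j : ℕ) : push j x 0 = x := by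
  funext i
  rcases i with k | m
  · simp [push, (fact_s hx k).1]
  · have h0 := (fact_s hx 0).1
    by_cases h : x (.inl 0) = 0
    · have : x (.inr m) = 0 := le_antisymm (h ▸ (fact_r hx m).2) (fact_r hx m).1
      simp [push, this]
    · simp [push, h0, h]

lemma beta_bounds {z : (ℕ → Bool) → ℕ → ℝ} {x : Amb} (hx : x ∈ Sp z) (j : ℕ) :
    0 < x (.inr (.inl j)) + max 0 (1 / (1 + j) - x (.inl 0)) * (1 / (1 + j)) ∧
    x (.inr (.inl j)) + max 0 (1 / (1 + j) - x (.inl 0)) * (1 / (1 + j)) ≤ 1 / (1 + j) := by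
  obtain ⟨q1, q2, q3⟩ := fact_q hx j
  have h0 := (fact_s hx 0).1
  have h1 : x (.inl 0) ≤ 1 := (fact_unit hx _).2
  have e0 : (0 : ℝ) < 1 / (1 + j) := by positivity
  have e1 := inv_le_one' j
  generalize (1 : ℝ) / (1 + j) = e at *
  constructor
  · rcases eq_or_lt_of_le h0 with h | h
    · rw [← h, sub_zero, max_eq_right e0.le]; positivity
    · have := q3 h
      positivity
  · rcases le_total (e - x (.inl 0)) 0 with h | h
    · rw [max_eq_left h]; nlinarith
    · rw [max_eq_right h]; nlinarith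

lemma push_one {z : (ℕ → Bool) → ℕ → ℝ} {x : Amb} (hx : x ∈ Sp z) (j : ℕ) : push j x 1 ≠ 0 := by
  intro h
  have h1 := congrFun h (.inl j)
  have h2 := (beta_bounds hx j).1
  simp only [push, if_true, Pi.zero_apply] at h1
  have h3 : max 0 (2 * (1 : ℝ) - 1) = 1 := by norm_num
  rw [h3, one_mul] at h1
  have := le_max_left 0 (x (.inl j) - min 1 (2 * (1 : ℝ)) * (1 / (1 + j)))
  linarith

lemma push_close {z : (ℕ → Bool) → ℕ → ℝ} {x : Amb} (hx : x ∈ Sp z) (j : ℕ) {θ : ℝ}
    (hθ : θ ∈ Icc (0 : ℝ) 1) (i : ℕ ⊕ ℕ ⊕ ℕ) : |push j x θ i - x i| ≤ 2 * (1 / (1 + j)) := by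
  have e0 : (0 : ℝ) < 1 / (1 + j) := by positivity
  have d0 : 0 ≤ min 1 (2 * θ) * (1 / (1 + (j : ℝ))) :=
    mul_nonneg (le_min zero_le_one (by linarith [hθ.1])) e0.le
  have d1 : min 1 (2 * θ) * (1 / (1 + (j : ℝ))) ≤ 1 / (1 + j) :=
    mul_le_of_le_one_left e0.le (min_le_left _ _)
  rcases i with k | m
  · obtain ⟨b0, b1⟩ := beta_bounds hx j
    have h0 := (fact_s hx k).1
    have a0 : 0 ≤ max 0 (2 * θ - 1) := le_max_left _ _
    have a1 : max 0 (2 * θ - 1) ≤ 1 := max_le zero_le_one (by linarith [hθ.2])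
    simp only [push]
    generalize x (.inr (.inl j)) + max 0 (1 / (1 + j) - x (.inl 0)) * (1 / (1 + j)) = β at *
    generalize min 1 (2 * θ) * (1 / (1 + (j : ℝ))) = d at *
    generalize max 0 (2 * θ - 1) = α at *
    generalize (1 : ℝ) / (1 + j) = e at *
    have c0 : 0 ≤ α * β := by positivity
    have c1 : α * β ≤ e := by nlinarith
    rw [abs_le]
    rcases le_total (x (.inl k) - d) 0 with h | h
    · rw [max_eq_left h]; split_ifs <;> constructor <;> linarith
    · rw [max_eq_right h]; split_ifs <;> constructor <;> linarith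
  · obtain ⟨r0, r1⟩ := fact_r hx m
    simp only [push]
    generalize min 1 (2 * θ) * (1 / (1 + (j : ℝ))) = d at *
    generalize (1 : ℝ) / (1 + j) = e at *
    rcases eq_or_lt_of_le (r0.trans r1) with h | h
    · have : x (.inr m) = 0 := le_antisymm (h ▸ r1) r0
      rw [this]; simp; positivity
    · generalize x (.inl 0) = a at *
      generalize x (.inr m) = b at *
      rw [abs_le]
      rcases le_total (a - d) 0 with h' | h'
      · rw [max_eq_left h']; simp only [zero_div, zero_mul]; constructor <;> linarith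
      · rw [max_eq_right h']
        have e1 : (a - d) / a * b - b = -(d * (b / a)) := by field_simp; ring
        have e2 : b / a ≤ 1 := (div_le_one h).2 r1
        have e3 : 0 ≤ b / a := by positivity
        rw [e1]
        constructor <;> nlinarith

lemma ratio_mul (a d r : ℝ) (hd : 0 ≤ d) : max 0 (a - d) / a * (a * r) = max 0 (a - d) * r := by
  by_cases h : a = 0
  · subst h
    rw [max_eq_left (by linarith)]; simp
  · field_simp

lemma push_mem {z : (ℕ → Bool) → ℕ → ℝ} {x : Amb} (hx : x ∈ Sp z) (j : ℕ) (hj : j ≠ 0) {θ : ℝ}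
    (hθ : θ ∈ Icc (0 : ℝ) 1) : push j x θ ∈ Sp z := by
  have e0 : (0 : ℝ) < 1 / (1 + j) := by positivity
  have d0 : 0 ≤ min 1 (2 * θ) * (1 / (1 + (j : ℝ))) :=
    mul_nonneg (le_min zero_le_one (by linarith [hθ.1])) e0.le
  have p0 : push j x θ (.inl 0) = max 0 (x (.inl 0) - min 1 (2 * θ) * (1 / (1 + j))) := by
    simp only [push, if_neg hj.symm, add_zero]
  have a0 : 0 ≤ max 0 (2 * θ - 1) := le_max_left _ _
  have a1 : max 0 (2 * θ - 1) ≤ 1 := max_le zero_le_one (by linarith [hθ.2])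
  obtain ⟨b0, b1⟩ := beta_bounds hx j
  have pne : ∀ k, k ≠ j → push j x θ (.inl k) =
      max 0 (x (.inl k) - min 1 (2 * θ) * (1 / (1 + j))) := by
    intro k hk; simp only [push, if_neg hk, add_zero]
  have ple : ∀ k, max 0 (x (.inl k) - min 1 (2 * θ) * (1 / (1 + j))) ≤ x (.inl k) := fun k =>
    max_le (fact_s hx k).1 (by linarith)
  -- the value at the raised coordinate
  have pj : push j x θ (.inl j) = max 0 (x (.inl j) - min 1 (2 * θ) * (1 / (1 + j))) ∨
      (min 1 (2 * θ) = 1 ∧ push j x θ (.inl j) = max 0 (2 * θ - 1) *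
        (x (.inr (.inl j)) + max 0 (1 / (1 + j) - x (.inl 0)) * (1 / (1 + j)))) := by
    rcases le_total (2 * θ) 1 with h | h
    · left
      simp only [push, if_true]
      rw [max_eq_left (show 2 * θ - 1 ≤ 0 by linarith), zero_mul, add_zero]
    · right
      refine ⟨min_eq_left h, ?_⟩
      simp only [push, if_true]
      rw [min_eq_left h, one_mul, max_eq_left (by linarith [(fact_s hx j).2]), zero_add]
  by_cases hz : push j x θ (.inl 0) = 0
  · left
    refine ⟨hz, fun k => ?_, fun k => ?_, fun n => ?_⟩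
    · by_cases hk : k = j
      · subst hk
        rcases pj with h | ⟨-, h⟩
        · rw [h]; exact ⟨le_max_left _ _, (ple k).trans (fact_s hx k).2⟩
        · rw [h]; exact ⟨by positivity, (mul_le_of_le_one_left b0.le a1).trans b1⟩
      · rw [pne k hk]; exact ⟨le_max_left _ _, (ple k).trans (fact_s hx k).2⟩
    · rw [p0] at hz
      simp only [push]; rw [hz]; simp
    · rw [p0] at hz
      simp only [push]; rw [hz]; simp
  · have hpos : min 1 (2 * θ) * (1 / (1 + j)) < x (.inl 0) := by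
      by_contra hh
      apply hz
      rw [p0, max_eq_left (by linarith)]
    rcases hx with h | ⟨t, h⟩
    · rw [h.1] at hpos; linarith
    · right
      have hposk : ∀ k, 0 < max 0 (x (.inl k) - min 1 (2 * θ) * (1 / (1 + j))) →
          min 1 (2 * θ) * (1 / (1 + j)) < x (.inl k) := by
        intro k hk
        by_contra hh
        rw [max_eq_left (by linarith)] at hk
        exact lt_irrefl _ hk
      refine ⟨t, fun k => ?_, fun k l hkl hk hl => ?_, fun k => ?_, fun n => ?_⟩
      · by_cases hk : k = j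
        · subst hk
          rcases pj with h' | ⟨h1, h'⟩
          · rw [h']; exact ⟨le_max_left _ _, (ple k).trans (h.1 k).2⟩
          · rw [h']
            refine ⟨by positivity, (mul_le_of_le_one_left b0.le a1).trans ?_⟩
            rw [h1, one_mul] at hpos
            rw [max_eq_left (by linarith), zero_mul, add_zero, h.2.2.1 k]
            exact mul_le_of_le_one_left (rad_pos _ _).le
              (fact_unit (z := z) (Or.inr ⟨t, h⟩) (.inl 0)).2
        · rw [pne k hk]; exact ⟨le_max_left _ _, (ple k).trans (h.1 k).2⟩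
      · rcases pj with h' | ⟨h1, -⟩
        · have all : ∀ m, push j x θ (.inl m) =
              max 0 (x (.inl m) - min 1 (2 * θ) * (1 / (1 + j))) := by
            intro m
            by_cases hm : m = j
            · rw [hm]; exact h'
            · exact pne m hm
          rw [all] at hk hl
          exact h.2.1 k l hkl (d0.trans_lt (hposk k hk)) (d0.trans_lt (hposk l hl))
        · have big : ∀ m, m ≠ j → 0 < push j x θ (.inl m) → (m : ℝ) + |z t m| < j ∧
              0 < x (.inl m) := by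
            intro m hm hpm
            rw [pne m hm] at hpm
            have h2 := hposk m hpm
            rw [h1, one_mul] at h2
            have h3 := h2.trans_le (h.1 m).2
            unfold rad at h3
            have h4 := lt_of_one_div_lt_one_div (by positivity) h3
            exact ⟨by linarith, e0.trans h2⟩
          by_cases hlj : l = j
          · have := (big k (by omega) hk).1
            rw [hlj]
            linarith [(Nat.cast_nonneg k : (0 : ℝ) ≤ k)]
          · have h5 := big l hlj hl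
            have h6 : (l : ℝ) < j := by linarith [abs_nonneg (z t l), h5.1]
            have h7 : l < j := by exact_mod_cast h6
            exact h.2.1 k l hkl (big k (by omega) hk).2 h5.2
      · rw [p0]
        simp only [push]
        rw [h.2.2.1 k, ratio_mul _ _ _ d0]
      · rw [p0]
        simp only [push]
        rw [h.2.2.2 n, ratio_mul _ _ _ d0]

lemma continuous_push (z : (ℕ → Bool) → ℕ → ℝ) (j : ℕ) :
    Continuous fun p : Sp z × unitInterval => push j p.1 p.2 := by
  have hc : ∀ i, Continuous fun p : Sp z × unitInterval => (p.1 : Amb) i := fun i =>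
    (continuous_apply i).comp (continuous_subtype_val.comp continuous_fst)
  have hθ : Continuous fun p : Sp z × unitInterval => (p.2 : ℝ) :=
    continuous_subtype_val.comp continuous_snd
  have hd : Continuous fun p : Sp z × unitInterval =>
      min 1 (2 * (p.2 : ℝ)) * (1 / (1 + (j : ℝ))) :=
    (continuous_const.min (continuous_const.mul hθ)).mul continuous_const
  refine continuous_pi fun i => ?_
  rcases i with k | m
  · simp only [push]
    refine (continuous_const.max ((hc _).sub hd)).add ?_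
    split_ifs
    · exact (continuous_const.max ((continuous_const.mul hθ).sub continuous_const)).mul
        ((hc _).add ((continuous_const.max (continuous_const.sub (hc _))).mul continuous_const))
    · exact continuous_const
  · simp only [push]
    refine continuous_ratio (hc _) (hc _) hd (fun p => (fact_r p.1.2 m).1)
      (fun p => (fact_r p.1.2 m).2) fun p => ?_
    exact mul_nonneg (le_min zero_le_one (by linarith [p.2.2.1])) (by positivity)

/-- The origin is homotopically unstable (uniform formulation). -/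
theorem unstable (z : (ℕ → Bool) → ℕ → ℝ) (V : Set (Sp z × Sp z)) (hV : V ∈ uniformity (Sp z)) :
    ∃ h : Sp z × unitInterval → Sp z, Continuous h ∧ (∀ x, h (x, 0) = x) ∧
      (∀ x t, (x, h (x, t)) ∈ V) ∧ ∀ x, h (x, 1) ≠ ⟨0, zero_mem z⟩ := by
  rw [uniformity_subtype] at hV
  obtain ⟨E, hE, hEV⟩ := mem_comap.1 hV
  obtain ⟨δ, hδ, hδE⟩ := sup_entourage hE
  obtain ⟨j, hj⟩ := exists_nat_gt (2 / δ)
  have hj0 : (0 : ℝ) < j := lt_trans (by positivity) hj
  have hj1 : j ≠ 0 := by rintro rfl; simp at hj0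
  have hjδ : 2 * (1 / (1 + (j : ℝ))) ≤ δ := by
    rw [div_lt_iff₀ hδ] at hj
    rw [mul_one_div, div_le_iff₀ (by positivity)]
    nlinarith
  refine ⟨fun p => ⟨push j p.1 p.2, push_mem p.1.2 j hj1 p.2.2⟩,
    (continuous_push z j).subtype_mk _, fun x => Subtype.ext (push_zero x.2 j), fun x t => ?_,
    fun x h => push_one x.2 j (congrArg Subtype.val h)⟩
  exact hEV (hδE _ _ fun i => (push_close x.2 j t.2 i).trans hjδ)

end Pool.Agent.Lib.MP_17e614_gt
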